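import Mathlib

/-!
Counting permutations `g` with `f ∘ g = h`.
-/

namespace Pool.Agent.MatLim

open Nat Finset

lemma factorial_step {a b : ℕ} (h : a ≤ b) : (a + 1)! * b ! ≤ a ! * (b + 1)! := by
  rw [Nat.factorial_succ, Nat.factorial_succ]
  calc (a + 1) * a ! * b ! = (a + 1) * (a ! * b !) := by ring
    _ ≤ (b + 1) * (a ! * b !) := Nat.mul_le_mul_right _ (by omega)
    _ = a ! * ((b + 1) * b !) := by ring

lemma factorial_mul_le_aux {r t : ℕ} (m : ℕ) (h : r + t ≤ m) :
    (r + t)! * m ! ≤ r ! * (m + t)! := by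
  induction t generalizing m with
  | zero => simp
  | succ t ih =>
    calc (r + (t + 1))! * m ! ≤ (r + t)! * (m + 1)! := by
          have := @factorial_step (r + t) m (by omega)
          exact this
      _ ≤ r ! * (m + 1 + t)! := ih (m + 1) (by omega)
      _ = r ! * (m + (t + 1))! := by congr 2; omega

lemma factorial_mul_le {k r n : ℕ} (h1 : r ≤ n) (h2 : n + r ≤ k) :
    n ! * (k - n)! ≤ r ! * (k - r)! := by
  rcases le_total n (k - n) with h | h
  · obtain ⟨t, rfl⟩ := Nat.exists_eq_add_of_le h1
    have := factorial_mul_le_aux (r := r) (t := t) (k - (r + t)) h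
    have h3 : k - (r + t) + t = k - r := by omega
    rwa [h3] at this
  · obtain ⟨t, ht⟩ := Nat.exists_eq_add_of_le (show r ≤ k - n by omega)
    have := factorial_mul_le_aux (r := r) (t := t) n (by omega)
    have h3 : n + t = k - r := by omega
    rw [h3, ← ht, mul_comm] at this
    exact this

lemma factorial_mul_choose_le {k r n : ℕ} (h1 : r ≤ n) (h2 : n + r ≤ k) :
    n ! * (k - n)! * k.choose r ≤ k ! := by
  calc n ! * (k - n)! * k.choose r ≤ r ! * (k - r)! * k.choose r :=
        Nat.mul_le_mul_right _ (factorial_mul_le h1 h2)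
    _ = k.choose r * r ! * (k - r)! := by ring
    _ = k ! := Nat.choose_mul_factorial_mul_factorial (by omega)

lemma card_comp_le_stab {k K : ℕ} (f h : Fin k → Fin K) :
    (univ.filter fun g : Equiv.Perm (Fin k) => ∀ i, f (g i) = h i).card ≤
      ∏ c, (univ.filter fun x => f x = c).card ! := by
  have hstab := DomMulAct.stabilizer_card f
  have hstab' : (univ.filter fun g : Equiv.Perm (Fin k) => f ∘ g = f).card
      = ∏ c, (univ.filter fun x => f x = c).card ! := by
    rw [← Fintype.card_subtype, hstab]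
    apply Finset.prod_congr rfl
    intro c _
    rw [Fintype.card_subtype]
  rw [← hstab']
  rcases (univ.filter fun g : Equiv.Perm (Fin k) => ∀ i, f (g i) = h i).eq_empty_or_nonempty
    with he | ⟨g₀, hg₀⟩
  · rw [he]; simp
  · rw [Finset.mem_filter] at hg₀
    apply Finset.card_le_card_of_injOn (fun g => g₀.symm.trans g)
    · intro g hg
      rw [Finset.mem_coe, Finset.mem_filter] at hg
      rw [Finset.mem_coe, Finset.mem_filter]
      refine ⟨Finset.mem_univ _, ?_⟩
      funext x
      show f (g (g₀.symm x)) = f x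
      rw [hg.2, ← hg₀.2]
      simp
    · intro g _ g' _ hgg
      ext x
      have h1 := congrArg (fun q : Equiv.Perm (Fin k) => q (g₀ x)) hgg
      simp only [Equiv.trans_apply, Equiv.symm_apply_apply] at h1
      rw [h1]

theorem card_comp_mul_choose_le {k K r : ℕ} (hK : 1 ≤ K) (hk : K * r ≤ k)
    (f h : Fin k → Fin K) (hcl : ∀ c, (univ.filter fun x => f x = c).card + r ≤ k) :
    (univ.filter fun g : Equiv.Perm (Fin k) => ∀ i, f (g i) = h i).card * k.choose r ≤ k ! := by
  classical
  refine (Nat.mul_le_mul_right _ (card_comp_le_stab f h)).trans ?_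
  have hne : (univ : Finset (Fin K)).Nonempty := ⟨⟨0, hK⟩, Finset.mem_univ _⟩
  obtain ⟨c, -, hc⟩ := Finset.exists_le_card_fiber_of_mul_le_card_of_maps_to
    (s := (univ : Finset (Fin k))) (t := (univ : Finset (Fin K))) (f := f) (n := r)
    (fun a _ => Finset.mem_univ _) hne (by simpa using hk)
  set n := (univ.filter fun x => f x = c).card with hn
  rw [← Finset.mul_prod_erase univ _ (Finset.mem_univ c)]
  have hsum : ∑ c' ∈ univ.erase c, (univ.filter fun x => f x = c').card = k - n := by
    have h1 : ∑ c' : Fin K, (univ.filter fun x => f x = c').card = k := by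
      have := Finset.card_eq_sum_card_fiberwise (s := (univ : Finset (Fin k)))
        (t := (univ : Finset (Fin K))) (f := f) (fun a _ => Finset.mem_coe.mpr (Finset.mem_univ _))
      rw [← this]; simp
    rw [← Finset.add_sum_erase univ _ (Finset.mem_univ c)] at h1
    omega
  have hdvd := Nat.prod_factorial_dvd_factorial_sum (univ.erase c)
    (fun c' => (univ.filter fun x => f x = c').card)
  rw [hsum] at hdvd
  have hle := Nat.le_of_dvd (Nat.factorial_pos _) hdvd
  calc (n ! * ∏ x ∈ univ.erase c, (univ.filter fun y => f y = x).card !) * k.choose r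
      ≤ (n ! * (k - n)!) * k.choose r :=
        Nat.mul_le_mul_right _ (Nat.mul_le_mul_left _ hle)
    _ ≤ k ! := factorial_mul_choose_le hc (hcl c)

lemma card_eval_mul {k : ℕ} (i y : Fin k) :
    (univ.filter fun g : Equiv.Perm (Fin k) => g i = y).card * k = k ! := by
  have h1 : ∀ z, (univ.filter fun g : Equiv.Perm (Fin k) => g i = z).card =
      (univ.filter fun g : Equiv.Perm (Fin k) => g i = y).card := by
    intro z
    refine Finset.card_bij' (fun g _ => g.trans (Equiv.swap z y))
      (fun g _ => g.trans (Equiv.swap z y)) ?_ ?_ ?_ ?_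
    · intro g hg
      rw [Finset.mem_filter] at hg ⊢
      refine ⟨Finset.mem_univ _, ?_⟩
      simp [hg.2]
    · intro g hg
      rw [Finset.mem_filter] at hg ⊢
      refine ⟨Finset.mem_univ _, ?_⟩
      simp [hg.2]
    · intro g _
      ext x
      simp
    · intro g _
      ext x
      simp
  have h2 := Finset.card_eq_sum_card_fiberwise (s := (univ : Finset (Equiv.Perm (Fin k))))
        (t := (univ : Finset (Fin k))) (f := fun g => g i)
        (fun a _ => Finset.mem_coe.mpr (Finset.mem_univ _))
  rw [Finset.card_univ, Fintype.card_perm, Fintype.card_fin] at h2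
  rw [h2, Finset.sum_congr rfl (fun z _ => h1 z), Finset.sum_const, Finset.card_univ,
    Fintype.card_fin, smul_eq_mul, mul_comm]

lemma card_hit_mul {k : ℕ} (I E : Finset (Fin k)) :
    (univ.filter fun g : Equiv.Perm (Fin k) => ∃ i ∈ I, g i ∈ E).card * k ≤
      I.card * E.card * k ! := by
  have hsub : (univ.filter fun g : Equiv.Perm (Fin k) => ∃ i ∈ I, g i ∈ E) ⊆
      (I ×ˢ E).biUnion fun q => univ.filter fun g : Equiv.Perm (Fin k) => g q.1 = q.2 := by
    intro g hg
    rw [Finset.mem_filter] at hg
    obtain ⟨-, i, hi, hE⟩ := hg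
    rw [Finset.mem_biUnion]
    exact ⟨(i, g i), Finset.mem_product.mpr ⟨hi, hE⟩, by simp⟩
  calc (univ.filter fun g : Equiv.Perm (Fin k) => ∃ i ∈ I, g i ∈ E).card * k
      ≤ ((I ×ˢ E).biUnion fun q => univ.filter fun g : Equiv.Perm (Fin k) => g q.1 = q.2).card * k :=
        Nat.mul_le_mul_right _ (Finset.card_le_card hsub)
    _ ≤ (∑ q ∈ I ×ˢ E, (univ.filter fun g : Equiv.Perm (Fin k) => g q.1 = q.2).card) * k :=
        Nat.mul_le_mul_right _ Finset.card_biUnion_le
    _ = ∑ q ∈ I ×ˢ E, (univ.filter fun g : Equiv.Perm (Fin k) => g q.1 = q.2).card * k :=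
        Finset.sum_mul _ _ _
    _ = ∑ _q ∈ I ×ˢ E, k ! := Finset.sum_congr rfl (fun q _ => card_eval_mul q.1 q.2)
    _ = I.card * E.card * k ! := by
        rw [Finset.sum_const, Finset.card_product, smul_eq_mul]

end Pool.Agent.MatLim
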