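import Mathlib

/-!
Fibrewise counting of tuples and counting of monotone maps.
-/

namespace Pool.Agent.MatLim

open Finset

/-- Replacing the `j`-th entry: an involution on pairs (tuple, element). -/
def swapEquiv {e : ℕ} {G : Type} (j : Fin e) : (Fin e → G) × G ≃ (Fin e → G) × G where
  toFun q := (Function.update q.1 j q.2, q.1 j)
  invFun q := (Function.update q.1 j q.2, q.1 j)
  left_inv := by
    rintro ⟨τ, g⟩
    simp
  right_inv := by
    rintro ⟨τ, g⟩
    simp

lemma card_update_mul_le {e : ℕ} {G : Type} [Fintype G] [DecidableEq G] (j : Fin e)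
    (Q : (Fin e → G) → Prop) [DecidablePred Q] (M N : ℕ)
    (h : ∀ τ, (univ.filter fun g => Q (Function.update τ j g)).card * M ≤ N * Fintype.card G) :
    (univ.filter fun τ => Q τ).card * M ≤ N * Fintype.card (Fin e → G) := by
  classical
  rcases isEmpty_or_nonempty G with hG | hG
  · have : IsEmpty (Fin e → G) := ⟨fun τ => hG.false (τ j)⟩
    simp [Finset.univ_eq_empty]
  have hpos : 0 < Fintype.card G := Fintype.card_pos
  have hcount : ∑ τ : Fin e → G, (univ.filter fun g => Q (Function.update τ j g)).card
      = (univ.filter fun τ => Q τ).card * Fintype.card G := by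
    have h1 : ∑ τ : Fin e → G, (univ.filter fun g => Q (Function.update τ j g)).card
        = (univ.filter fun q : (Fin e → G) × G => Q (Function.update q.1 j q.2)).card := by
      rw [Finset.card_filter, ← Finset.univ_product_univ, Finset.sum_product]
      apply Finset.sum_congr rfl
      intro τ _
      rw [Finset.card_filter]
    have h2 : (univ.filter fun q : (Fin e → G) × G => Q (Function.update q.1 j q.2)).card
        = (univ.filter fun q : (Fin e → G) × G => Q q.1).card := by
      apply Finset.card_equiv (swapEquiv j)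
      intro q
      simp [swapEquiv]
    have h3 : (univ.filter fun q : (Fin e → G) × G => Q q.1)
        = (univ.filter fun τ => Q τ) ×ˢ (univ : Finset G) := by
      ext q
      simp
    rw [h1, h2, h3, Finset.card_product, Finset.card_univ]
  have h4 : (univ.filter fun τ => Q τ).card * M * Fintype.card G
      ≤ N * Fintype.card (Fin e → G) * Fintype.card G := by
    calc (univ.filter fun τ => Q τ).card * M * Fintype.card G
        = (∑ τ : Fin e → G, (univ.filter fun g => Q (Function.update τ j g)).card) * M := by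
          rw [hcount]; ring
      _ = ∑ τ : Fin e → G, (univ.filter fun g => Q (Function.update τ j g)).card * M :=
          Finset.sum_mul _ _ _
      _ ≤ ∑ _τ : Fin e → G, N * Fintype.card G := Finset.sum_le_sum fun τ _ => h τ
      _ = N * Fintype.card (Fin e → G) * Fintype.card G := by
          rw [Finset.sum_const, Finset.card_univ, smul_eq_mul]; ring
  exact Nat.le_of_mul_le_mul_right h4 hpos

/-- The thresholds of a map `Fin k → Fin K`. -/
def thr {k K : ℕ} (φ : Fin k → Fin K) (c : Fin K) : Fin (k + 1) :=
  ⟨(univ.filter fun x => φ x ≤ c).card, Nat.lt_succ_of_le (by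
    calc (univ.filter fun x => φ x ≤ c).card ≤ (univ : Finset (Fin k)).card :=
          Finset.card_le_card (Finset.filter_subset _ _)
      _ = k := by simp)⟩

lemma lt_thr {k K : ℕ} {φ : Fin k → Fin K} (hφ : Monotone φ) (c : Fin K) (x : Fin k) :
    (x : ℕ) < thr φ c ↔ φ x ≤ c := by
  unfold thr
  simp only
  constructor
  · intro h
    by_contra hx
    rw [not_le] at hx
    have hsub : (univ.filter fun y => φ y ≤ c) ⊆ Finset.Iio x := by
      intro y hy
      rw [Finset.mem_filter] at hy
      rw [Finset.mem_Iio]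
      by_contra hxy
      rw [not_lt] at hxy
      exact absurd (hφ hxy) (not_le.mpr (hy.2.trans_lt hx))
    have := Finset.card_le_card hsub
    rw [Fin.card_Iio] at this
    omega
  · intro h
    have hsub : Finset.Iic x ⊆ (univ.filter fun y => φ y ≤ c) := by
      intro y hy
      rw [Finset.mem_Iic] at hy
      rw [Finset.mem_filter]
      exact ⟨Finset.mem_univ _, (hφ hy).trans h⟩
    have := Finset.card_le_card hsub
    rw [Fin.card_Iic] at this
    omega

lemma thr_injOn {k K : ℕ} : Set.InjOn (thr : (Fin k → Fin K) → Fin K → Fin (k + 1))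
    {φ | Monotone φ} := by
  intro φ hφ ψ hψ h
  funext x
  apply le_antisymm
  · rw [← lt_thr hφ, h, lt_thr hψ]
  · rw [← lt_thr hψ, ← h, lt_thr hφ]

lemma card_monotone_le (k K : ℕ) :
    (univ.filter fun φ : Fin k → Fin K => Monotone φ).card ≤ (k + 1) ^ K := by
  classical
  calc (univ.filter fun φ : Fin k → Fin K => Monotone φ).card
      ≤ (univ : Finset (Fin K → Fin (k + 1))).card := by
        apply Finset.card_le_card_of_injOn thr
        · intro φ _; exact Finset.mem_coe.mpr (Finset.mem_univ _)
        · intro φ hφ ψ hψ h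
          rw [Finset.mem_coe, Finset.mem_filter] at hφ hψ
          exact thr_injOn hφ.2 hψ.2 h
    _ = (k + 1) ^ K := by simp

lemma card_monotone_family_le (e k K : ℕ) :
    (univ.filter fun φ : Fin (e + 1) → Fin k → Fin K => ∀ l, Monotone (φ l)).card
      ≤ (k + 1) ^ (K * (e + 1)) := by
  classical
  have h1 : (univ.filter fun φ : Fin (e + 1) → Fin k → Fin K => ∀ l, Monotone (φ l))
      = Fintype.piFinset fun _ : Fin (e + 1) =>
        (univ.filter fun φ : Fin k → Fin K => Monotone φ) := by
    ext φ
    simp
  rw [h1, Fintype.card_piFinset]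
  calc ∏ _l : Fin (e + 1), (univ.filter fun φ : Fin k → Fin K => Monotone φ).card
      ≤ ∏ _l : Fin (e + 1), (k + 1) ^ K := Finset.prod_le_prod' fun _ _ => card_monotone_le k K
    _ = (k + 1) ^ (K * (e + 1)) := by simp [pow_mul]

lemma pow_le_choose' {k m : ℕ} (hk : 2 * (m + 1) ≤ k) :
    k * (k + 1) ^ m ≤ 2 ^ (m + 1) * (m + 1).factorial * k.choose (m + 1) := by
  have h1 : (k + 1 - (m + 1)) ^ (m + 1) ≤ (m + 1).factorial * k.choose (m + 1) := by
    have := Nat.pow_le_choose (α := ℚ) (m + 1) k
    rw [div_le_iff₀ (by positivity)] at this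
    have h2 : (((k + 1 - (m + 1)) ^ (m + 1) : ℕ) : ℚ)
        ≤ (((k.choose (m + 1)) * (m + 1).factorial : ℕ) : ℚ) := by
      push_cast at this ⊢
      exact this
    have h3 := Nat.cast_le.mp h2
    rw [mul_comm]
    exact h3
  calc k * (k + 1) ^ m ≤ (k + 1) * (k + 1) ^ m := Nat.mul_le_mul_right _ (by omega)
    _ = (k + 1) ^ (m + 1) := by ring
    _ ≤ (2 * (k + 1 - (m + 1))) ^ (m + 1) := Nat.pow_le_pow_left (by omega) _
    _ = 2 ^ (m + 1) * (k + 1 - (m + 1)) ^ (m + 1) := by rw [mul_pow]
    _ ≤ 2 ^ (m + 1) * ((m + 1).factorial * k.choose (m + 1)) := Nat.mul_le_mul_left _ h1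
    _ = 2 ^ (m + 1) * (m + 1).factorial * k.choose (m + 1) := by ring

end Pool.Agent.MatLim
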