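import Pool.Agent.Helper68.Mat.Defs
import Pool.Agent.Helper68.Mat.Count1
import Pool.Agent.Helper68.Mat.Count2

/-!
Counting the permutation patterns for which the block set `{b | ∑ b = 0}` is not safe.
-/

namespace Pool.Agent.MatLim

open Finset

/-- The block set `{b ∈ (ℤ/K)^(e+1) | ∑ b = 0}`. -/
def zeroSum (e K : ℕ) [NeZero K] : Finset (Fin (e + 1) → Fin K) :=
  univ.filter fun b => ∑ l, b l = 0

lemma card_zeroSum (e K : ℕ) [NeZero K] : (zeroSum e K).card = K ^ e := by
  have h : (zeroSum e K).card = (univ : Finset (Fin e → Fin K)).card := by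
    refine Finset.card_bij' (fun b _ => Fin.tail b) (fun a _ => Fin.cons (- ∑ j, a j) a) ?_ ?_ ?_ ?_
    · intro b _
      exact Finset.mem_univ _
    · intro a _
      rw [zeroSum, Finset.mem_filter]
      refine ⟨Finset.mem_univ _, ?_⟩
      rw [Fin.sum_univ_succ]
      simp
    · intro b hb
      rw [zeroSum, Finset.mem_filter] at hb
      have h2 := hb.2
      rw [Fin.sum_univ_succ] at h2
      funext l
      refine Fin.cases ?_ (fun j => ?_) l
      · simp only [Fin.cons_zero, Fin.tail]
        exact (eq_neg_of_add_eq_zero_left h2).symm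
      · simp [Fin.tail]
    · intro a _
      simp
  rw [h]
  simp

/-- The `l`-th coordinate of the `i`-th point of the permutation pattern. -/
def sig {e k : ℕ} (τ : Fin e → Equiv.Perm (Fin k)) (l : Fin (e + 1)) (i : Fin k) : Fin k :=
  (Fin.cons i (fun j => τ j i) : Fin (e + 1) → Fin k) l

lemma sig_zero {e k : ℕ} (τ : Fin e → Equiv.Perm (Fin k)) (i : Fin k) : sig τ 0 i = i := rfl

lemma sig_succ {e k : ℕ} (τ : Fin e → Equiv.Perm (Fin k)) (j : Fin e) (i : Fin k) :
    sig τ j.succ i = τ j i := rfl

lemma sig_bij {e k : ℕ} (τ : Fin e → Equiv.Perm (Fin k)) (l : Fin (e + 1)) :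
    Function.Bijective (sig τ l) := by
  refine Fin.cases ?_ (fun j => ?_) l
  · exact Function.bijective_id
  · exact (τ j).bijective

lemma mem_permPattern {e k : ℕ} (τ : Fin e → Equiv.Perm (Fin k)) (x : Fin (e + 1) → Fin k) :
    x ∈ permPattern τ ↔ ∃ i, (fun l => sig τ l i) = x := by
  unfold permPattern
  simp only [Finset.mem_image, Finset.mem_univ, true_and]
  rfl

lemma spanning_permPattern {e k : ℕ} (τ : Fin e → Equiv.Perm (Fin k)) :
    Spanning (permPattern τ) := by
  intro l j
  obtain ⟨i, hi⟩ := (sig_bij τ l).2 j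
  have hmem : (fun l => sig τ l i) ∈ permPattern τ := (mem_permPattern τ _).mpr ⟨i, rfl⟩
  exact ⟨⟨_, hmem, hi.le⟩, ⟨_, hmem, hi.ge⟩⟩

/-- First kind of bad event: one non-degenerate relation. -/
lemma card_relation_mul_le {e k K r : ℕ} [NeZero K] (hk : K * r ≤ k)
    (φ : Fin (e + 1) → Fin k → Fin K) (j : Fin e)
    (hcl : ∀ c, (univ.filter fun x => φ j.succ x = c).card + r ≤ k) :
    (univ.filter fun τ : Fin e → Equiv.Perm (Fin k) => ∀ i, ∑ l, φ l (sig τ l i) = 0).card
      * k.choose r ≤ 1 * Fintype.card (Fin e → Equiv.Perm (Fin k)) := by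
  classical
  refine card_update_mul_le j
    (fun τ : Fin e → Equiv.Perm (Fin k) => ∀ i, ∑ l, φ l (sig τ l i) = 0) (k.choose r) 1 ?_
  intro τ
  rw [one_mul, Fintype.card_perm, Fintype.card_fin]
  refine le_trans (Nat.mul_le_mul_right _ (Finset.card_le_card ?_))
    (card_comp_mul_choose_le (Nat.one_le_iff_ne_zero.mpr (NeZero.ne K)) hk (φ j.succ)
      (fun i => -(φ 0 i + ∑ j' ∈ univ.erase j, φ j'.succ (τ j' i))) hcl)
  intro g hg
  rw [Finset.mem_filter] at hg ⊢
  refine ⟨Finset.mem_univ _, fun i => ?_⟩
  have h1 := hg.2 i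
  rw [Fin.sum_univ_succ, sig_zero, ← Finset.add_sum_erase univ _ (Finset.mem_univ j),
    sig_succ, Function.update_self] at h1
  have h2 : ∑ j' ∈ univ.erase j, φ j'.succ (sig (Function.update τ j g) j'.succ i)
      = ∑ j' ∈ univ.erase j, φ j'.succ (τ j' i) := by
    apply Finset.sum_congr rfl
    intro j' hj'
    rw [sig_succ, Function.update_of_ne (Finset.ne_of_mem_erase hj')]
  rw [h2] at h1
  apply eq_neg_of_add_eq_zero_left
  rw [← h1]
  abel

/-- The extreme positions. -/
def Ext (k R : ℕ) : Finset (Fin k) := univ.filter fun x => (x : ℕ) < R ∨ k ≤ x + R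

lemma card_Ext_le (k R : ℕ) : (Ext k R).card ≤ 2 * R := by
  have h1 : Ext k R ⊆ (univ.filter fun x : Fin k => (x : ℕ) < R) ∪
      (univ.filter fun x : Fin k => k ≤ x + R) := by
    intro x hx
    rw [Ext, Finset.mem_filter] at hx
    rw [Finset.mem_union, Finset.mem_filter, Finset.mem_filter]
    rcases hx.2 with h | h
    · exact Or.inl ⟨Finset.mem_univ _, h⟩
    · exact Or.inr ⟨Finset.mem_univ _, h⟩
  have h2 : (univ.filter fun x : Fin k => (x : ℕ) < R).card ≤ R := by
    calc (univ.filter fun x : Fin k => (x : ℕ) < R).card ≤ (Finset.range R).card := by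
          apply Finset.card_le_card_of_injOn (fun x : Fin k => (x : ℕ))
          · intro x hx
            rw [Finset.mem_coe, Finset.mem_filter] at hx
            rw [Finset.mem_coe, Finset.mem_range]
            exact hx.2
          · intro x _ y _ h
            exact Fin.ext h
      _ = R := Finset.card_range R
  have h3 : (univ.filter fun x : Fin k => k ≤ x + R).card ≤ R := by
    calc (univ.filter fun x : Fin k => k ≤ x + R).card ≤ (Finset.range R).card := by
          apply Finset.card_le_card_of_injOn (fun x : Fin k => k - 1 - (x : ℕ))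
          · intro x hx
            rw [Finset.mem_coe, Finset.mem_filter] at hx
            rw [Finset.mem_coe, Finset.mem_range]
            show k - 1 - (x : ℕ) < R
            have := x.2
            have := hx.2
            omega
          · intro x _ y _ h
            apply Fin.ext
            have := x.2
            have := y.2
            simp only at h
            omega
      _ = R := Finset.card_range R
  calc (Ext k R).card ≤ _ := Finset.card_le_card h1
    _ ≤ _ := Finset.card_union_le _ _
    _ ≤ 2 * R := by omega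

lemma mem_Ext_of_ne {k K R : ℕ} {φ : Fin k → Fin K} (hφ : Monotone φ) {c : Fin K}
    (hR : (univ.filter fun x => φ x ≠ c).card ≤ R) {x : Fin k} (hx : φ x ≠ c) : x ∈ Ext k R := by
  rw [Ext, Finset.mem_filter]
  refine ⟨Finset.mem_univ _, ?_⟩
  rcases lt_or_gt_of_ne hx with h | h
  · left
    have hsub : Finset.Iic x ⊆ (univ.filter fun x => φ x ≠ c) := by
      intro y hy
      rw [Finset.mem_Iic] at hy
      rw [Finset.mem_filter]
      exact ⟨Finset.mem_univ _, ((hφ hy).trans_lt h).ne⟩
    have := Finset.card_le_card hsub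
    rw [Fin.card_Iic] at this
    omega
  · right
    have hsub : Finset.Ici x ⊆ (univ.filter fun x => φ x ≠ c) := by
      intro y hy
      rw [Finset.mem_Ici] at hy
      rw [Finset.mem_filter]
      exact ⟨Finset.mem_univ _, (h.trans_le (hφ hy)).ne'⟩
    have := Finset.card_le_card hsub
    rw [Fin.card_Ici] at this
    omega

/-- Second kind of bad event: two coordinates of one point are extreme. -/
lemma card_double_mul_le {e k R : ℕ} (j : Fin e) (l : Fin (e + 1)) (hl : l ≠ j.succ) :
    (univ.filter fun τ : Fin e → Equiv.Perm (Fin k) =>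
      ∃ i, sig τ l i ∈ Ext k R ∧ τ j i ∈ Ext k R).card * k ≤
      (4 * R ^ 2) * Fintype.card (Fin e → Equiv.Perm (Fin k)) := by
  classical
  refine card_update_mul_le j
    (fun τ : Fin e → Equiv.Perm (Fin k) => ∃ i, sig τ l i ∈ Ext k R ∧ τ j i ∈ Ext k R) k
    (4 * R ^ 2) ?_
  intro τ
  rw [Fintype.card_perm, Fintype.card_fin]
  have hsig : ∀ (g : Equiv.Perm (Fin k)) i, sig (Function.update τ j g) l i = sig τ l i := by
    intro g i
    revert hl
    refine Fin.cases ?_ (fun j' => ?_) l
    · intro _; rfl
    · intro hl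
      have hne : j' ≠ j := fun h => hl (by rw [h])
      rw [sig_succ, sig_succ, Function.update_of_ne hne]
  set I : Finset (Fin k) := univ.filter fun i => sig τ l i ∈ Ext k R with hI
  have hIcard : I.card ≤ 2 * R := by
    refine le_trans ?_ (card_Ext_le k R)
    apply Finset.card_le_card_of_injOn (sig τ l)
    · intro i hi
      rw [hI, Finset.mem_coe, Finset.mem_filter] at hi
      exact hi.2
    · exact fun x _ y _ h => (sig_bij τ l).1 h
  have hsub : (univ.filter fun g : Equiv.Perm (Fin k) =>
      ∃ i, sig (Function.update τ j g) l i ∈ Ext k R ∧ Function.update τ j g j i ∈ Ext k R) ⊆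
      (univ.filter fun g : Equiv.Perm (Fin k) => ∃ i ∈ I, g i ∈ Ext k R) := by
    intro g hg
    rw [Finset.mem_filter] at hg ⊢
    obtain ⟨-, i, h1, h2⟩ := hg
    refine ⟨Finset.mem_univ _, i, ?_, ?_⟩
    · rw [hI, Finset.mem_filter, ← hsig g i]
      exact ⟨Finset.mem_univ _, h1⟩
    · rwa [Function.update_self] at h2
  calc (univ.filter fun g : Equiv.Perm (Fin k) =>
      ∃ i, sig (Function.update τ j g) l i ∈ Ext k R ∧ Function.update τ j g j i ∈ Ext k R).card * k
      ≤ (univ.filter fun g : Equiv.Perm (Fin k) => ∃ i ∈ I, g i ∈ Ext k R).card * k :=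
        Nat.mul_le_mul_right _ (Finset.card_le_card hsub)
    _ ≤ I.card * (Ext k R).card * k.factorial := card_hit_mul I (Ext k R)
    _ ≤ (2 * R) * (2 * R) * k.factorial :=
        Nat.mul_le_mul_right _ (Nat.mul_le_mul hIcard (card_Ext_le k R))
    _ = 4 * R ^ 2 * k.factorial := by ring

/-- Structure of an unsafe pattern. -/
lemma unsafe_cases {e k K r : ℕ} [NeZero K] {τ : Fin e → Equiv.Perm (Fin k)}
    (h : ¬ Safe (zeroSum e K) (permPattern τ)) :
    (∃ j : Fin e, ∃ φ : Fin (e + 1) → Fin k → Fin K, (∀ l, Monotone (φ l)) ∧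
      (∀ c, (univ.filter fun x => φ j.succ x = c).card + r ≤ k) ∧
      ∀ i, ∑ l, φ l (sig τ l i) = 0) ∨
    (∃ j : Fin e, ∃ l : Fin (e + 1), l ≠ j.succ ∧
      ∃ i, sig τ l i ∈ Ext k (e * r + r) ∧ τ j i ∈ Ext k (e * r + r)) := by
  classical
  unfold Safe at h
  push Not at h
  obtain ⟨φ, hφ, hS, x, hx, y, hy, l₀, hne⟩ := h
  have hsum : ∀ i, ∑ l, φ l (sig τ l i) = 0 := by
    intro i
    have h1 := hS _ ((mem_permPattern τ _).mpr ⟨i, rfl⟩)
    rw [zeroSum, Finset.mem_filter] at h1
    exact h1.2
  by_cases hcase : ∃ j : Fin e, ∀ c, (univ.filter fun x => φ j.succ x = c).card + r ≤ k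
  · left
    obtain ⟨j, hj⟩ := hcase
    exact ⟨j, φ, hφ, hj, hsum⟩
  · right
    push Not at hcase
    choose c' hc' using hcase
    set c : Fin (e + 1) → Fin K := Fin.cons (- ∑ j, c' j) c' with hc
    have hc0 : c 0 = - ∑ j, c' j := rfl
    have hcs : ∀ j, c (Fin.succ j) = c' j := fun j => rfl
    have hcsum : ∑ l, c l = 0 := by
      rw [Fin.sum_univ_succ, hc0]
      simp [hcs]
    -- exceptional indices
    have hNs : ∀ j : Fin e, (univ.filter fun x => φ j.succ x ≠ c j.succ).card ≤ r := by
      intro j
      have h1 : (univ.filter fun x => φ j.succ x = c j.succ).card +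
          (univ.filter fun x => φ j.succ x ≠ c j.succ).card = k := by
        have h0 := Finset.card_filter_add_card_filter_not (s := (univ : Finset (Fin k)))
          (fun x => φ j.succ x = c j.succ)
        rw [Finset.card_univ, Fintype.card_fin] at h0
        convert h0 using 3
      have h2 := hc' j
      rw [← hcs j] at h2
      omega
    have hN0 : (univ.filter fun x => φ 0 x ≠ c 0).card ≤ e * r := by
      have hsub : (univ.filter fun x => φ 0 x ≠ c 0) ⊆
          (univ : Finset (Fin e)).biUnion fun j =>
            (univ.filter fun i => φ j.succ (τ j i) ≠ c j.succ) := by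
        intro i hi
        rw [Finset.mem_filter] at hi
        by_contra hcon
        rw [Finset.mem_biUnion] at hcon
        push Not at hcon
        apply hi.2
        have h1 := hsum i
        rw [Fin.sum_univ_succ, sig_zero] at h1
        rw [eq_neg_of_add_eq_zero_left h1, hc0]
        congr 1
        apply Finset.sum_congr rfl
        intro j _
        have h2 := hcon j (Finset.mem_univ _)
        rw [Finset.mem_filter] at h2
        push Not at h2
        exact h2 (Finset.mem_univ _)
      calc (univ.filter fun x => φ 0 x ≠ c 0).card ≤ _ := Finset.card_le_card hsub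
        _ ≤ ∑ j : Fin e, (univ.filter fun i => φ j.succ (τ j i) ≠ c j.succ).card :=
            Finset.card_biUnion_le
        _ ≤ ∑ _j : Fin e, r := by
            apply Finset.sum_le_sum
            intro j _
            refine le_trans ?_ (hNs j)
            apply Finset.card_le_card_of_injOn (τ j)
            · intro i hi
              rw [Finset.mem_coe, Finset.mem_filter] at hi ⊢
              exact ⟨Finset.mem_univ _, hi.2⟩
            · exact fun a _ b _ hab => (τ j).injective hab
        _ = e * r := by simp
    have hN : ∀ l, (univ.filter fun x => φ l x ≠ c l).card ≤ e * r + r := by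
      intro l
      refine Fin.cases ?_ (fun j => ?_) l
      · exact hN0.trans (Nat.le_add_right _ _)
      · exact (hNs j).trans (Nat.le_add_left _ _)
    have hext : ∀ l i, φ l (sig τ l i) ≠ c l → sig τ l i ∈ Ext k (e * r + r) := fun l i hli =>
      mem_Ext_of_ne (hφ l) (hN l) hli
    -- a point with a non-majority value
    have hex : ∃ i l, φ l (sig τ l i) ≠ c l := by
      by_contra hcon
      push Not at hcon
      obtain ⟨i, rfl⟩ := (mem_permPattern τ x).mp hx
      obtain ⟨i', rfl⟩ := (mem_permPattern τ y).mp hy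
      exact hne ((hcon i l₀).trans (hcon i' l₀).symm)
    obtain ⟨i, l, hl⟩ := hex
    have hex' : ∃ l', l' ≠ l ∧ φ l' (sig τ l' i) ≠ c l' := by
      by_contra hcon
      push Not at hcon
      apply hl
      have h1 := hsum i
      rw [← Finset.add_sum_erase univ _ (Finset.mem_univ l)] at h1
      have h2 := hcsum
      rw [← Finset.add_sum_erase univ _ (Finset.mem_univ l)] at h2
      have h3 : ∑ l' ∈ univ.erase l, φ l' (sig τ l' i) = ∑ l' ∈ univ.erase l, c l' := by
        apply Finset.sum_congr rfl
        intro l' hl'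
        exact hcon l' (Finset.ne_of_mem_erase hl')
      rw [h3] at h1
      rw [eq_neg_of_add_eq_zero_left h1, eq_neg_of_add_eq_zero_left h2]
    obtain ⟨l', hll', hl'⟩ := hex'
    -- one of the two is a successor
    rcases Fin.eq_zero_or_eq_succ l with h0 | ⟨j, hj⟩
    · rcases Fin.eq_zero_or_eq_succ l' with h0' | ⟨j', hj'⟩
      · exact absurd (h0'.trans h0.symm) hll'
      · refine ⟨j', l, ?_, i, hext l i hl, ?_⟩
        · rw [← hj']; exact hll'.symm
        · have := hext l' i hl'
          rw [hj', sig_succ] at this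
          exact this
    · refine ⟨j, l', ?_, i, hext l' i hl', ?_⟩
      · rw [← hj]; exact hll'
      · have := hext l i hl
        rw [hj, sig_succ] at this
        exact this

theorem card_unsafe_mul_le (e K : ℕ) [NeZero K] :
    ∃ C : ℕ, ∀ k : ℕ, ∀ B : Finset (Fin e → Equiv.Perm (Fin k)),
      (∀ τ ∈ B, ¬ Safe (zeroSum e K) (permPattern τ)) →
      B.card * k ≤ C * Fintype.card (Fin e → Equiv.Perm (Fin k)) := by
  classical
  set m : ℕ := K * (e + 1) with hm
  set r : ℕ := m + 1 with hr
  set R : ℕ := e * r + r with hR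
  refine ⟨e * (2 ^ r * r.factorial) + e * (e + 1) * (4 * R ^ 2) + (2 + K) * r, ?_⟩
  intro k B hB
  set N := Fintype.card (Fin e → Equiv.Perm (Fin k)) with hN
  have hBN : B.card ≤ N := by
    rw [hN, ← Finset.card_univ]
    exact Finset.card_le_card (Finset.subset_univ _)
  rcases lt_or_ge k ((2 + K) * r) with hsmall | hlarge
  · calc B.card * k ≤ N * ((2 + K) * r) := Nat.mul_le_mul hBN hsmall.le
      _ = ((2 + K) * r) * N := by ring
      _ ≤ _ := Nat.mul_le_mul_right _ (Nat.le_add_left _ _)
  · have hk1 : K * r ≤ k := le_trans (Nat.mul_le_mul_right _ (by omega)) hlarge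
    have hk2 : 2 * r ≤ k := le_trans (Nat.mul_le_mul_right _ (by omega)) hlarge
    -- the families of monotone maps
    set Φ : Finset (Fin (e + 1) → Fin k → Fin K) := univ.filter fun φ => ∀ l, Monotone (φ l)
      with hΦ
    have hΦc : Φ.card ≤ (k + 1) ^ m := card_monotone_family_le e k K
    set B₁ : Finset (Fin e → Equiv.Perm (Fin k)) :=
      (univ : Finset (Fin e)).biUnion fun j =>
        (Φ.filter fun φ => ∀ c, (univ.filter fun x => φ j.succ x = c).card + r ≤ k).biUnion fun φ =>
          univ.filter fun τ => ∀ i, ∑ l, φ l (sig τ l i) = 0 with hB₁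
    set B₂ : Finset (Fin e → Equiv.Perm (Fin k)) :=
      (univ : Finset (Fin e)).biUnion fun j =>
        ((univ : Finset (Fin (e + 1))).filter fun l => l ≠ j.succ).biUnion fun l =>
          univ.filter fun τ => ∃ i, sig τ l i ∈ Ext k R ∧ τ j i ∈ Ext k R with hB₂
    have hsub : B ⊆ B₁ ∪ B₂ := by
      intro τ hτ
      rw [Finset.mem_union]
      rcases unsafe_cases (r := r) (hB τ hτ) with ⟨j, φ, hφ, hcl, hsum⟩ | ⟨j, l, hl, i, h1, h2⟩
      · left
        rw [hB₁, Finset.mem_biUnion]
        refine ⟨j, Finset.mem_univ _, ?_⟩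
        rw [Finset.mem_biUnion]
        refine ⟨φ, ?_, ?_⟩
        · rw [Finset.mem_filter, hΦ, Finset.mem_filter]
          exact ⟨⟨Finset.mem_univ _, hφ⟩, hcl⟩
        · rw [Finset.mem_filter]
          exact ⟨Finset.mem_univ _, hsum⟩
      · right
        rw [hB₂, Finset.mem_biUnion]
        refine ⟨j, Finset.mem_univ _, ?_⟩
        rw [Finset.mem_biUnion]
        refine ⟨l, ?_, ?_⟩
        · rw [Finset.mem_filter]
          exact ⟨Finset.mem_univ _, hl⟩
        · rw [Finset.mem_filter]
          exact ⟨Finset.mem_univ _, i, h1, h2⟩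
    have hB₂c : B₂.card * k ≤ e * (e + 1) * (4 * R ^ 2) * N := by
      calc B₂.card * k ≤ (∑ j : Fin e, ∑ l ∈ (univ : Finset (Fin (e + 1))).filter
            (fun l => l ≠ j.succ), (univ.filter fun τ : Fin e → Equiv.Perm (Fin k) =>
              ∃ i, sig τ l i ∈ Ext k R ∧ τ j i ∈ Ext k R).card) * k := by
            apply Nat.mul_le_mul_right
            refine Finset.card_biUnion_le.trans ?_
            exact Finset.sum_le_sum fun j _ => Finset.card_biUnion_le
        _ = ∑ j : Fin e, ∑ l ∈ (univ : Finset (Fin (e + 1))).filter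
            (fun l => l ≠ j.succ), (univ.filter fun τ : Fin e → Equiv.Perm (Fin k) =>
              ∃ i, sig τ l i ∈ Ext k R ∧ τ j i ∈ Ext k R).card * k := by
            rw [Finset.sum_mul]
            apply Finset.sum_congr rfl
            intro j _
            rw [Finset.sum_mul]
        _ ≤ ∑ j : Fin e, ∑ l ∈ (univ : Finset (Fin (e + 1))).filter
            (fun l => l ≠ j.succ), (4 * R ^ 2) * N := by
            apply Finset.sum_le_sum
            intro j _
            apply Finset.sum_le_sum
            intro l hl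
            rw [Finset.mem_filter] at hl
            exact card_double_mul_le j l hl.2
        _ ≤ ∑ _j : Fin e, (e + 1) * ((4 * R ^ 2) * N) := by
            apply Finset.sum_le_sum
            intro j _
            rw [Finset.sum_const, smul_eq_mul]
            apply Nat.mul_le_mul_right
            calc ((univ : Finset (Fin (e + 1))).filter (fun l => l ≠ j.succ)).card
                ≤ (univ : Finset (Fin (e + 1))).card := Finset.card_le_card (Finset.filter_subset _ _)
              _ = e + 1 := by simp
        _ = e * (e + 1) * (4 * R ^ 2) * N := by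
            rw [Finset.sum_const, smul_eq_mul, Finset.card_univ, Fintype.card_fin]
            ring
    have hB₁c : B₁.card * k.choose r ≤ e * ((k + 1) ^ m) * N := by
      calc B₁.card * k.choose r ≤ (∑ j : Fin e, ∑ φ ∈ Φ.filter
            (fun φ => ∀ c, (univ.filter fun x => φ j.succ x = c).card + r ≤ k),
            (univ.filter fun τ : Fin e → Equiv.Perm (Fin k) =>
              ∀ i, ∑ l, φ l (sig τ l i) = 0).card) * k.choose r := by
            apply Nat.mul_le_mul_right
            refine Finset.card_biUnion_le.trans ?_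
            exact Finset.sum_le_sum fun j _ => Finset.card_biUnion_le
        _ = ∑ j : Fin e, ∑ φ ∈ Φ.filter
            (fun φ => ∀ c, (univ.filter fun x => φ j.succ x = c).card + r ≤ k),
            (univ.filter fun τ : Fin e → Equiv.Perm (Fin k) =>
              ∀ i, ∑ l, φ l (sig τ l i) = 0).card * k.choose r := by
            rw [Finset.sum_mul]
            apply Finset.sum_congr rfl
            intro j _
            rw [Finset.sum_mul]
        _ ≤ ∑ j : Fin e, ∑ φ ∈ Φ.filter
            (fun φ => ∀ c, (univ.filter fun x => φ j.succ x = c).card + r ≤ k), 1 * N := by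
            apply Finset.sum_le_sum
            intro j _
            apply Finset.sum_le_sum
            intro φ hφ
            rw [Finset.mem_filter] at hφ
            exact card_relation_mul_le hk1 φ j hφ.2
        _ ≤ ∑ _j : Fin e, (k + 1) ^ m * N := by
            apply Finset.sum_le_sum
            intro j _
            rw [Finset.sum_const, smul_eq_mul, one_mul]
            apply Nat.mul_le_mul_right
            exact (Finset.card_le_card (Finset.filter_subset _ _)).trans hΦc
        _ = e * ((k + 1) ^ m) * N := by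
            rw [Finset.sum_const, smul_eq_mul, Finset.card_univ, Fintype.card_fin]
            ring
    have hB₁c' : B₁.card * k ≤ e * (2 ^ r * r.factorial) * N := by
      have hpos : 0 < (k + 1) ^ m := by positivity
      apply Nat.le_of_mul_le_mul_right _ hpos
      calc B₁.card * k * (k + 1) ^ m = B₁.card * (k * (k + 1) ^ m) := by ring
        _ ≤ B₁.card * (2 ^ (m + 1) * (m + 1).factorial * k.choose (m + 1)) :=
            Nat.mul_le_mul_left _ (pow_le_choose' (by rw [← hr]; exact hk2))
        _ = (2 ^ r * r.factorial) * (B₁.card * k.choose r) := by rw [← hr]; ring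
        _ ≤ (2 ^ r * r.factorial) * (e * ((k + 1) ^ m) * N) := Nat.mul_le_mul_left _ hB₁c
        _ = e * (2 ^ r * r.factorial) * N * (k + 1) ^ m := by ring
    calc B.card * k ≤ (B₁.card + B₂.card) * k :=
          Nat.mul_le_mul_right _ ((Finset.card_le_card hsub).trans (Finset.card_union_le _ _))
      _ = B₁.card * k + B₂.card * k := by ring
      _ ≤ e * (2 ^ r * r.factorial) * N + e * (e + 1) * (4 * R ^ 2) * N :=
          Nat.add_le_add hB₁c' hB₂c
      _ = (e * (2 ^ r * r.factorial) + e * (e + 1) * (4 * R ^ 2)) * N := by ring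
      _ ≤ _ := Nat.mul_le_mul_right _ (Nat.le_add_right _ _)

end Pool.Agent.MatLim
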