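import Pool.Agent.Helper68.Mat.Defs

/-!
Monotonicity of the extremal function and the block construction.
-/

namespace Pool.Agent.MatLim

variable {d : ℕ} {k : Fin d → ℕ}

lemma bddAbove_ex (P : Finset ((i : Fin d) → Fin (k i))) (n : ℕ) :
    BddAbove {m : ℕ | ∃ A : Finset (Fin d → Fin n), A.card = m ∧ ¬ Contains P A} := by
  refine ⟨Fintype.card (Fin d → Fin n), ?_⟩
  rintro m ⟨A, rfl, _⟩
  exact Finset.card_le_univ A

lemma le_ex {P : Finset ((i : Fin d) → Fin (k i))} {n : ℕ} {A : Finset (Fin d → Fin n)}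
    (hA : ¬ Contains P A) : A.card ≤ ex P n :=
  le_csSup (bddAbove_ex P n) ⟨A, rfl, hA⟩

lemma ex_eq_zero_or (P : Finset ((i : Fin d) → Fin (k i))) (n : ℕ) :
    ex P n = 0 ∨ ∃ A : Finset (Fin d → Fin n), A.card = ex P n ∧ ¬ Contains P A := by
  by_cases h : {m : ℕ | ∃ A : Finset (Fin d → Fin n), A.card = m ∧ ¬ Contains P A}.Nonempty
  · right
    exact Nat.sSup_mem h (bddAbove_ex P n)
  · left
    rw [Set.not_nonempty_iff_eq_empty] at h
    unfold ex
    rw [h]
    simp

lemma ex_mono {P : Finset ((i : Fin d) → Fin (k i))} (hP : Spanning P) {n m : ℕ} (hnm : n ≤ m) :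
    ex P n ≤ ex P m := by
  rcases ex_eq_zero_or P n with h | ⟨A, hA, hav⟩
  · rw [h]; exact Nat.zero_le _
  · rw [← hA]
    let f : (Fin d → Fin n) ↪ (Fin d → Fin m) :=
      ⟨fun a i => Fin.castLE hnm (a i), fun a b hab => by
        funext i
        have := congrFun hab i
        exact Fin.castLE_injective hnm this⟩
    rw [← Finset.card_map f]
    apply le_ex
    rintro ⟨φ, hφ⟩
    apply hav
    have hlt : ∀ i (j : Fin (k i)), (φ i j : ℕ) < n := by
      intro i j
      obtain ⟨-, y, hy, hjy⟩ := hP i j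
      have h1 := hφ y hy
      rw [Finset.mem_map] at h1
      obtain ⟨a, -, hfa⟩ := h1
      have h2 : Fin.castLE hnm (a i) = φ i (y i) := congrFun hfa i
      have h3 : φ i j ≤ φ i (y i) := (φ i).monotone hjy
      calc (φ i j : ℕ) ≤ φ i (y i) := h3
        _ = (Fin.castLE hnm (a i) : Fin m) := by rw [h2]
        _ = (a i : ℕ) := rfl
        _ < n := (a i).2
    refine ⟨fun i => OrderEmbedding.ofStrictMono (fun j => ⟨φ i j, hlt i j⟩) ?_, ?_⟩
    · intro j j' hj
      exact (φ i).strictMono hj
    · intro x hx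
      have h1 := hφ x hx
      rw [Finset.mem_map] at h1
      obtain ⟨a, ha, hfa⟩ := h1
      convert ha using 1
      funext i
      have h2 : Fin.castLE hnm (a i) = φ i (x i) := congrFun hfa i
      apply Fin.ext
      show (φ i (x i) : ℕ) = a i
      rw [← h2]
      rfl

lemma block {P : Finset ((i : Fin d) → Fin (k i))} (hP : Spanning P) {K : ℕ}
    {S : Finset (Fin d → Fin K)} (hS : Safe S P) (n : ℕ) :
    S.card * ex P n ≤ ex P (K * n) := by
  rcases ex_eq_zero_or P n with h | ⟨A, hA, hav⟩
  · rw [h]; simp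
  · rw [← hA, ← Finset.card_product]
    have hPne : P.Nonempty := by
      by_contra hne
      rw [Finset.not_nonempty_iff_eq_empty] at hne
      apply hav
      refine ⟨fun i => OrderEmbedding.ofStrictMono (fun j => ?_) ?_, ?_⟩
      · exfalso
        obtain ⟨⟨x, hx, -⟩, -⟩ := hP i j
        rw [hne] at hx
        simp at hx
      · intro j
        exfalso
        obtain ⟨⟨x, hx, -⟩, -⟩ := hP i j
        rw [hne] at hx
        simp at hx
      · intro x hx
        rw [hne] at hx
        simp at hx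
    let f : (Fin d → Fin K) × (Fin d → Fin n) ↪ (Fin d → Fin (K * n)) :=
      ⟨fun q i => finProdFinEquiv (q.1 i, q.2 i), fun q q' hq => by
        have h1 : ∀ i, (q.1 i, q.2 i) = (q'.1 i, q'.2 i) := fun i =>
          finProdFinEquiv.injective (congrFun hq i)
        apply Prod.ext
        · funext i; exact (Prod.mk.inj (h1 i)).1
        · funext i; exact (Prod.mk.inj (h1 i)).2⟩
    rw [← Finset.card_map f]
    apply le_ex
    rintro ⟨φ, hφ⟩
    apply hav
    -- block and residue
    let ψ : (i : Fin d) → Fin (k i) → Fin K := fun i j => (finProdFinEquiv.symm (φ i j)).1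
    let ρ : (i : Fin d) → Fin (k i) → Fin n := fun i j => (finProdFinEquiv.symm (φ i j)).2
    have hval : ∀ i j, (φ i j : ℕ) = ρ i j + n * ψ i j := by
      intro i j
      have h1 : finProdFinEquiv (ψ i j, ρ i j) = φ i j := finProdFinEquiv.apply_symm_apply _
      have h2 := congrArg Fin.val h1
      rw [finProdFinEquiv_apply_val] at h2
      exact h2.symm
    have hψ : ∀ i, Monotone (ψ i) := by
      intro i j j' hj
      by_contra hlt
      rw [not_le] at hlt
      have h1 : (φ i j : ℕ) ≤ φ i j' := (φ i).monotone hj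
      rw [hval, hval] at h1
      have h2 : (ψ i j' : ℕ) + 1 ≤ ψ i j := hlt
      have h3 : (ρ i j' : ℕ) < n := (ρ i j').2
      have h4 : n * ((ψ i j' : ℕ) + 1) ≤ n * ψ i j := Nat.mul_le_mul_left n h2
      rw [Nat.mul_add, Nat.mul_one] at h4
      omega
    have hmem : ∀ x ∈ P, (fun i => ψ i (x i)) ∈ S ∧ (fun i => ρ i (x i)) ∈ A := by
      intro x hx
      have h1 := hφ x hx
      rw [Finset.mem_map] at h1
      obtain ⟨⟨b, a⟩, hba, hfa⟩ := h1
      rw [Finset.mem_product] at hba
      have h2 : ∀ i, finProdFinEquiv.symm (φ i (x i)) = (b i, a i) := by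
        intro i
        have h3 : finProdFinEquiv (b i, a i) = φ i (x i) := congrFun hfa i
        rw [← h3, Equiv.symm_apply_apply]
      constructor
      · convert hba.1 using 1
        funext i
        exact congrArg Prod.fst (h2 i)
      · convert hba.2 using 1
        funext i
        exact congrArg Prod.snd (h2 i)
    have hconst := hS ψ hψ (fun x hx => (hmem x hx).1)
    have hall : ∀ i (j j' : Fin (k i)), ψ i j = ψ i j' := by
      intro i j j'
      obtain ⟨⟨x, hx, hxj⟩, ⟨y, hy, hjy⟩⟩ := hP i j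
      obtain ⟨⟨x', hx', hxj'⟩, ⟨y', hy', hjy'⟩⟩ := hP i j'
      have e1 : ψ i j = ψ i (x i) :=
        le_antisymm ((hψ i hjy).trans (hconst y hy x hx i).le) (hψ i hxj)
      have e2 : ψ i j' = ψ i (x' i) :=
        le_antisymm ((hψ i hjy').trans (hconst y' hy' x' hx' i).le) (hψ i hxj')
      rw [e1, e2, hconst x hx x' hx' i]
    refine ⟨fun i => OrderEmbedding.ofStrictMono (ρ i) ?_, ?_⟩
    · intro j j' hj
      have h1 : (φ i j : ℕ) < φ i j' := (φ i).strictMono hj
      rw [hval, hval, hall i j j'] at h1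
      exact (Nat.add_lt_add_iff_right).mp h1
    · intro x hx
      exact (hmem x hx).2

end Pool.Agent.MatLim
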