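import Mathlib

/-!
A large level set of the coordinate sum on `[K]^d` (second moment method), and the middle level for
`d = 3`.
-/

namespace Pool.Agent.MatLim

open Finset

/-- Twice the centred value. -/
noncomputable def cen (K : ℕ) (x : Fin K) : ℝ := 2 * (x : ℕ) - ((K : ℝ) - 1)

lemma cen_rev {K : ℕ} (x : Fin K) : cen K x.rev = - cen K x := by
  unfold cen
  rw [Fin.val_rev]
  have h : ((K - (x + 1) : ℕ) : ℝ) = K - (x + 1) := by
    rw [Nat.cast_sub (by have := x.2; omega)]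
    push_cast
    ring
  rw [h]
  ring

lemma sum_cen (K : ℕ) : ∑ x : Fin K, cen K x = 0 := by
  have h : ∑ x : Fin K, cen K x = ∑ x : Fin K, cen K x.rev :=
    (Equiv.sum_comp Fin.revPerm (fun x => cen K x)).symm
  have h2 : ∑ x : Fin K, cen K x.rev = - ∑ x : Fin K, cen K x := by
    rw [← Finset.sum_neg_distrib]
    exact Finset.sum_congr rfl fun x _ => cen_rev x
  linarith

lemma sum_sq_range (n : ℕ) (c : ℝ) :
    ∑ x ∈ Finset.range n, (2 * (x : ℝ) - c) ^ 2
      = 2 * n * (n - 1) * (2 * n - 1) / 3 - 2 * c * n * (n - 1) + n * c ^ 2 := by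
  induction n with
  | zero => simp
  | succ n ih =>
    rw [Finset.sum_range_succ, ih]
    push_cast
    ring

lemma sum_cen_sq_le (K : ℕ) : ∑ x : Fin K, cen K x ^ 2 ≤ (K : ℝ) ^ 3 / 3 := by
  have h : ∑ x : Fin K, cen K x ^ 2 = ∑ x ∈ Finset.range K, (2 * (x : ℝ) - ((K : ℝ) - 1)) ^ 2 := by
    rw [Finset.sum_range]
    rfl
  rw [h, sum_sq_range]
  have hK : (0 : ℝ) ≤ K := Nat.cast_nonneg K
  nlinarith

lemma second_moment (d K : ℕ) :
    (K : ℝ) * ∑ b : Fin d → Fin K, (∑ i, cen K (b i)) ^ 2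
      = d * (K : ℝ) ^ d * ∑ x : Fin K, cen K x ^ 2 := by
  induction d with
  | zero => simp
  | succ d ih =>
    have hmean : ∑ b : Fin d → Fin K, ∑ x : Fin K, cen K x * ∑ i, cen K (b i) = 0 := by
      apply Finset.sum_eq_zero
      intro b _
      rw [← Finset.sum_mul, sum_cen, zero_mul]
    have h1 : ∑ b : Fin (d + 1) → Fin K, (∑ i, cen K (b i)) ^ 2
        = ∑ b : Fin d → Fin K, ∑ x : Fin K, (cen K x + ∑ i, cen K (b i)) ^ 2 := by
      rw [← (Fin.consEquiv (fun _ : Fin (d + 1) => Fin K)).sum_comp, Fintype.sum_prod_type,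
        Finset.sum_comm]
      apply Finset.sum_congr rfl
      intro b _
      apply Finset.sum_congr rfl
      intro x _
      rw [Fin.sum_univ_succ]
      simp [Fin.consEquiv]
    have h2 : ∑ b : Fin d → Fin K, ∑ x : Fin K, (cen K x + ∑ i, cen K (b i)) ^ 2
        = (K : ℝ) ^ d * ∑ x : Fin K, cen K x ^ 2 +
          K * ∑ b : Fin d → Fin K, (∑ i, cen K (b i)) ^ 2 := by
      have h3 : ∀ (b : Fin d → Fin K) (x : Fin K), (cen K x + ∑ i, cen K (b i)) ^ 2
          = cen K x ^ 2 + 2 * (cen K x * ∑ i, cen K (b i)) + (∑ i, cen K (b i)) ^ 2 := by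
        intro b x; ring
      simp only [h3, Finset.sum_add_distrib, ← Finset.mul_sum]
      simp only [Finset.sum_const, Finset.card_univ, Fintype.card_fin, Fintype.card_fun,
        nsmul_eq_mul]
      push_cast
      have h5 : ∑ b : Fin d → Fin K, ∑ x : Fin K, cen K x * ∑ i, cen K (b i) = 0 := hmean
      simp only [← Finset.mul_sum] at h5 ⊢
      rw [h5, mul_zero, add_zero]
    rw [h1, h2, mul_add, ih]
    push_cast
    ring

lemma exists_level (d K : ℕ) (hd : 1 ≤ d) (hK : 1 ≤ K) :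
    ∃ s : ℕ, 2 / 3 * (K : ℝ) ^ d ≤
      (univ.filter fun b : Fin d → Fin K => ∑ i, (b i : ℕ) = s).card * (Real.sqrt d * K + 1) := by
  classical
  have hd0 : (0 : ℝ) < d := by exact_mod_cast hd
  have hK0 : (0 : ℝ) < K := by exact_mod_cast hK
  set Y : (Fin d → Fin K) → ℝ := fun b => ∑ i, cen K (b i) with hY
  set G : Finset (Fin d → Fin K) := univ.filter fun b => Y b ^ 2 ≤ d * K ^ 2 with hG
  have hV : ∑ b, Y b ^ 2 ≤ d * (K : ℝ) ^ (d + 2) / 3 := by
    have h1 := second_moment d K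
    have h2 := sum_cen_sq_le K
    have h3 : (K : ℝ) * ∑ b, Y b ^ 2 ≤ K * (d * (K : ℝ) ^ (d + 2) / 3) := by
      rw [h1]
      calc (d : ℝ) * (K : ℝ) ^ d * ∑ x : Fin K, cen K x ^ 2
          ≤ d * (K : ℝ) ^ d * ((K : ℝ) ^ 3 / 3) :=
            mul_le_mul_of_nonneg_left h2 (by positivity)
        _ = K * (d * (K : ℝ) ^ (d + 2) / 3) := by ring
    exact le_of_mul_le_mul_left h3 hK0
  have hbad : ((univ.filter fun b => ¬ Y b ^ 2 ≤ d * K ^ 2).card : ℝ) ≤ (K : ℝ) ^ d / 3 := by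
    have h1 : ((univ.filter fun b => ¬ Y b ^ 2 ≤ d * K ^ 2).card : ℝ) * (d * K ^ 2)
        ≤ ∑ b, Y b ^ 2 := by
      calc ((univ.filter fun b => ¬ Y b ^ 2 ≤ d * K ^ 2).card : ℝ) * (d * K ^ 2)
          = ∑ _b ∈ univ.filter (fun b => ¬ Y b ^ 2 ≤ d * K ^ 2), ((d : ℝ) * K ^ 2) := by
            rw [Finset.sum_const, nsmul_eq_mul]
        _ ≤ ∑ b ∈ univ.filter (fun b => ¬ Y b ^ 2 ≤ d * K ^ 2), Y b ^ 2 := by
            apply Finset.sum_le_sum
            intro b hb
            rw [Finset.mem_filter] at hb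
            exact (not_le.mp hb.2).le
        _ ≤ ∑ b, Y b ^ 2 :=
            Finset.sum_le_sum_of_subset_of_nonneg (Finset.filter_subset _ _)
              (fun b _ _ => sq_nonneg _)
    have h2 := h1.trans hV
    have h3 : (d : ℝ) * (K : ℝ) ^ (d + 2) / 3 = (K : ℝ) ^ d / 3 * (d * K ^ 2) := by ring
    rw [h3] at h2
    exact le_of_mul_le_mul_right h2 (by positivity)
  have hGc : 2 / 3 * (K : ℝ) ^ d ≤ G.card := by
    have h1 := Finset.card_filter_add_card_filter_not (s := (univ : Finset (Fin d → Fin K)))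
      (fun b => Y b ^ 2 ≤ d * K ^ 2)
    rw [Finset.card_univ, Fintype.card_fun, Fintype.card_fin, Fintype.card_fin] at h1
    have h2 : (G.card : ℝ) + ((univ.filter fun b => ¬ Y b ^ 2 ≤ d * K ^ 2).card : ℝ)
        = (K : ℝ) ^ d := by
      have h0 := congrArg (Nat.cast (R := ℝ)) h1
      rw [Nat.cast_add, Nat.cast_pow] at h0
      exact h0
    linarith
  have hYsum : ∀ b, Y b = 2 * ((∑ i, (b i : ℕ) : ℕ) : ℝ) - d * ((K : ℝ) - 1) := by
    intro b
    rw [hY]
    unfold cen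
    simp only
    rw [Finset.sum_sub_distrib, ← Finset.mul_sum, Finset.sum_const, Finset.card_univ,
      Fintype.card_fin, nsmul_eq_mul]
    push_cast
    ring
  have habs : ∀ b ∈ G, |Y b| ≤ Real.sqrt d * K := by
    intro b hb
    rw [hG, Finset.mem_filter] at hb
    rw [← Real.sqrt_sq_eq_abs]
    calc Real.sqrt (Y b ^ 2) ≤ Real.sqrt (d * K ^ 2) := Real.sqrt_le_sqrt hb.2
      _ = Real.sqrt d * K := by
        rw [Real.sqrt_mul hd0.le, Real.sqrt_sq hK0.le]
  have hGne : G.Nonempty := by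
    rw [← Finset.card_pos]
    have h1 : (0 : ℝ) < G.card := lt_of_lt_of_le (by positivity) hGc
    exact_mod_cast h1
  set T : Finset ℕ := G.image (fun b => ∑ i, (b i : ℕ)) with hT
  have hTne : T.Nonempty := hGne.image _
  have hTc : (T.card : ℝ) ≤ Real.sqrt d * K + 1 := by
    have hsub : T ⊆ Finset.Icc (T.min' hTne) (T.max' hTne) := by
      intro s hs
      rw [Finset.mem_Icc]
      exact ⟨Finset.min'_le _ _ hs, Finset.le_max' _ _ hs⟩
    have h1 := Finset.card_le_card hsub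
    rw [Nat.card_Icc] at h1
    obtain ⟨b, hb, hbs⟩ := Finset.mem_image.mp (Finset.min'_mem T hTne)
    obtain ⟨b', hb', hbs'⟩ := Finset.mem_image.mp (Finset.max'_mem T hTne)
    have h2 := habs b hb
    have h3 := habs b' hb'
    rw [hYsum] at h2 h3
    rw [hbs] at h2
    rw [hbs'] at h3
    rw [abs_le] at h2 h3
    have hle : T.min' hTne ≤ T.max' hTne := Finset.min'_le_max' T hTne
    have h4 : (T.card : ℝ) ≤ (T.max' hTne : ℝ) + 1 - (T.min' hTne : ℝ) := by
      have : ((T.max' hTne + 1 - T.min' hTne : ℕ) : ℝ) = (T.max' hTne : ℝ) + 1 - (T.min' hTne : ℝ) := by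
        rw [Nat.cast_sub (by omega)]
        push_cast
        ring
      rw [← this]
      exact_mod_cast h1
    linarith [h2.1, h3.2]
  by_contra hcon
  push Not at hcon
  have h1 : (G.card : ℝ) * (Real.sqrt d * K + 1) < (Real.sqrt d * K + 1) * (2 / 3 * (K : ℝ) ^ d) := by
    have h2 : (G.card : ℝ) = ∑ s ∈ T, ((G.filter fun b => ∑ i, (b i : ℕ) = s).card : ℝ) := by
      have := Finset.card_eq_sum_card_image (fun b : Fin d → Fin K => ∑ i, (b i : ℕ)) G
      rw [this]
      push_cast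
      rfl
    rw [h2, Finset.sum_mul]
    calc ∑ s ∈ T, ((G.filter fun b => ∑ i, (b i : ℕ) = s).card : ℝ) * (Real.sqrt d * K + 1)
        < ∑ _s ∈ T, 2 / 3 * (K : ℝ) ^ d := by
          apply Finset.sum_lt_sum_of_nonempty hTne
          intro s _
          refine lt_of_le_of_lt ?_ (hcon s)
          apply mul_le_mul_of_nonneg_right _ (by positivity)
          norm_cast
          apply Finset.card_le_card
          exact Finset.filter_subset_filter _ (Finset.subset_univ _)
      _ = T.card * (2 / 3 * (K : ℝ) ^ d) := by rw [Finset.sum_const, nsmul_eq_mul]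
      _ ≤ (Real.sqrt d * K + 1) * (2 / 3 * (K : ℝ) ^ d) :=
          mul_le_mul_of_nonneg_right hTc (by positivity)
  have h2 : (Real.sqrt d * K + 1) * (2 / 3 * (K : ℝ) ^ d) ≤ G.card * (Real.sqrt d * K + 1) := by
    rw [mul_comm]
    exact mul_le_mul_of_nonneg_right hGc (by positivity)
  linarith

/-- The middle level of `[2h]^3` has at least `3h²` elements. -/
lemma card_level_three (h : ℕ) :
    3 * h ^ 2 ≤ (univ.filter fun b : Fin 3 → Fin (2 * h) => ∑ i, (b i : ℕ) = 3 * h - 2).card := by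
  classical
  let f : Fin 3 × Fin h × Fin h → ℕ × ℕ × ℕ := fun q =>
    if q.1 = 0 then (q.2.1, h + q.2.2, 3 * h - 2 - (q.2.1 + (h + q.2.2)))
    else if q.1 = 1 then (h + q.2.1, q.2.2, 3 * h - 2 - ((h + q.2.1) + q.2.2))
    else if (q.2.1 : ℕ) + q.2.2 + 1 ≥ h then (q.2.1, q.2.2, 3 * h - 2 - (q.2.1 + q.2.2))
    else (h + q.2.1, h + q.2.2, 3 * h - 2 - ((h + q.2.1) + (h + q.2.2)))
  have hf : ∀ q, (f q).1 < 2 * h ∧ (f q).2.1 < 2 * h ∧ (f q).2.2 < 2 * h ∧
      (f q).1 + (f q).2.1 + (f q).2.2 = 3 * h - 2 := by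
    rintro ⟨t, a, b⟩
    have ha := a.2
    have hb := b.2
    simp only [f]
    split_ifs <;> simp only <;> omega
  have hinj : ∀ q q', (f q).1 = (f q').1 → (f q).2.1 = (f q').2.1 → q = q' := by
    rintro ⟨t, a, b⟩ ⟨t', a', b'⟩ h1 h2
    have ha := a.2
    have hb := b.2
    have ha' := a'.2
    have hb' := b'.2
    have key : t = t' ∧ (a : ℕ) = a' ∧ (b : ℕ) = b' := by
      simp only [f] at h1 h2
      fin_cases t <;> fin_cases t' <;> simp at h1 h2 ⊢ <;>
        first
          | omega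
          | (split_ifs at h1 h2 <;> simp at h1 h2 <;> omega)
    obtain ⟨h3, h4, h5⟩ := key
    rw [h3, Fin.ext h4, Fin.ext h5]
  have hcard : (univ : Finset (Fin 3 × Fin h × Fin h)).card = 3 * h ^ 2 := by
    simp [Fintype.card_prod, sq]
  rw [← hcard]
  apply Finset.card_le_card_of_injOn
    (fun q => ![⟨(f q).1, (hf q).1⟩, ⟨(f q).2.1, (hf q).2.1⟩, ⟨(f q).2.2, (hf q).2.2.1⟩])
  · intro q _
    rw [Finset.mem_coe, Finset.mem_filter]
    refine ⟨Finset.mem_univ _, ?_⟩
    rw [Fin.sum_univ_three]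
    exact (hf q).2.2.2
  · intro q _ q' _ hqq
    apply hinj
    · have := congrFun hqq 0
      exact congrArg Fin.val this
    · have := congrFun hqq 1
      exact congrArg Fin.val this

end Pool.Agent.MatLim
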