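import Pool.Agent.Helper68.Mat.Defs
import Pool.Agent.Helper68.Mat.Block

/-!
Patterns with a one at a corner: level sets of (signed) coordinate sums are safe.
-/

namespace Pool.Agent.MatLim

open Finset

/-- Some one of `P` lies at a corner: each of its coordinates is the first or the last index. -/
def CornerOne {d : ℕ} {k : Fin d → ℕ} (P : Finset ((i : Fin d) → Fin (k i))) : Prop :=
  ∃ x ∈ P, ∀ i, (∀ j, x i ≤ j) ∨ (∀ j, j ≤ x i)

/-- Reverse a coordinate if `ε` is false. -/
def flip1 {K : ℕ} (ε : Bool) (b : Fin K) : Fin K := if ε then b else b.rev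

lemma flip1_flip1 {K : ℕ} (ε : Bool) (b : Fin K) : flip1 ε (flip1 ε b) = b := by
  unfold flip1
  cases ε <;> simp

lemma flip1_injective {K : ℕ} (ε : Bool) : Function.Injective (flip1 (K := K) ε) := by
  intro a b h
  have := congrArg (flip1 ε) h
  rwa [flip1_flip1, flip1_flip1] at this

/-- Level sets of the signed coordinate sum. -/
def level (d K : ℕ) (ε : Fin d → Bool) (s : ℕ) : Finset (Fin d → Fin K) :=
  univ.filter fun b => ∑ i, ((flip1 (ε i) (b i) : Fin K) : ℕ) = s

lemma card_level (d K : ℕ) (ε : Fin d → Bool) (s : ℕ) :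
    (level d K ε s).card = (univ.filter fun b : Fin d → Fin K => ∑ i, (b i : ℕ) = s).card := by
  unfold level
  refine Finset.card_bij' (fun b _ i => flip1 (ε i) (b i)) (fun b _ i => flip1 (ε i) (b i))
    ?_ ?_ ?_ ?_
  · intro b hb
    rw [Finset.mem_filter] at hb ⊢
    exact ⟨Finset.mem_univ _, hb.2⟩
  · intro b hb
    rw [Finset.mem_filter] at hb ⊢
    refine ⟨Finset.mem_univ _, ?_⟩
    simp only [flip1_flip1]
    exact hb.2
  · intro b _
    funext i
    exact flip1_flip1 _ _
  · intro b _
    funext i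
    exact flip1_flip1 _ _

lemma safe_level {d K : ℕ} {k : Fin d → ℕ} {P : Finset ((i : Fin d) → Fin (k i))}
    (hP : CornerOne P) : ∃ ε : Fin d → Bool, ∀ s, Safe (level d K ε s) P := by
  classical
  obtain ⟨x, hx, hcorner⟩ := hP
  refine ⟨fun i => decide (∀ j, x i ≤ j), fun s => ?_⟩
  intro φ hφ hmem
  have hall : ∀ y ∈ P, ∀ i, φ i (x i) = φ i (y i) := by
    intro y hy
    have h1 := hmem x hx
    have h2 := hmem y hy
    rw [level, Finset.mem_filter] at h1 h2
    have hle : ∀ i ∈ (univ : Finset (Fin d)),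
        ((flip1 (decide (∀ j, x i ≤ j)) (φ i (x i)) : Fin K) : ℕ) ≤
          ((flip1 (decide (∀ j, x i ≤ j)) (φ i (y i)) : Fin K) : ℕ) := by
      intro i _
      by_cases hi : ∀ j, x i ≤ j
      · have : decide (∀ j, x i ≤ j) = true := by simp [hi]
        rw [this]
        exact hφ i (hi (y i))
      · have : decide (∀ j, x i ≤ j) = false := by simpa using hi
        rw [this]
        have h3 := (hcorner i).resolve_left hi
        have h4 : φ i (y i) ≤ φ i (x i) := hφ i (h3 (y i))
        unfold flip1
        simp only [Bool.false_eq_true, if_false]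
        exact Fin.rev_le_rev.mpr h4
    have heq := (Finset.sum_eq_sum_iff_of_le hle).mp (h1.2.trans h2.2.symm)
    intro i
    exact flip1_injective _ (Fin.ext (heq i (Finset.mem_univ i)))
  intro y hy z hz i
  rw [← hall y hy i, ← hall z hz i]

/-- The block inequality for patterns with a corner one. -/
theorem corner_block {d : ℕ} {k : Fin d → ℕ} {P : Finset ((i : Fin d) → Fin (k i))}
    (hsp : Spanning P) (hP : CornerOne P) (K s n : ℕ) :
    (univ.filter fun b : Fin d → Fin K => ∑ i, (b i : ℕ) = s).card * ex P n ≤ ex P (K * n) := by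
  obtain ⟨ε, hε⟩ := safe_level (K := K) hP
  rw [← card_level d K ε s]
  exact block hsp (hε s) n

end Pool.Agent.MatLim
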