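import Mathlib

/-!
Lower bound for the limit inferior from block counts with density `c` at all large scales.
-/

namespace Pool.Agent.MatLim

open Filter Topology

theorem liminf_of_density {F : ℕ → ℕ} (hmono : ∀ n m, n ≤ m → F n ≤ F m) {e : ℕ} {c : ℝ}
    (hN : ∀ ε : ℝ, 0 < ε → ∃ K₀ : ℕ, ∀ K : ℕ, K₀ ≤ K → ∀ n : ℕ,
      (c - ε) * (K : ℝ) ^ e * F n ≤ F (K * n)) (m : ℕ) (hm : 1 ≤ m) :
    ENNReal.ofReal c * ((F m : ENNReal) / (m : ENNReal) ^ e) ≤
      liminf (fun n : ℕ => (F n : ENNReal) / (n : ENNReal) ^ e) atTop := by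
  have hm0 : (0 : ℝ) < m := by exact_mod_cast hm
  have hreal : ∀ n : ℕ, 1 ≤ n → (F n : ENNReal) / (n : ENNReal) ^ e
      = ENNReal.ofReal ((F n : ℝ) / (n : ℝ) ^ e) := by
    intro n hn
    have hn0 : (0 : ℝ) < n := by exact_mod_cast hn
    rw [ENNReal.ofReal_div_of_pos (by positivity), ENNReal.ofReal_natCast,
      ENNReal.ofReal_pow hn0.le, ENNReal.ofReal_natCast]
  rcases le_or_gt c 0 with hc | hc
  · rw [ENNReal.ofReal_of_nonpos hc, zero_mul]
    exact zero_le
  rw [hreal m hm, ← ENNReal.ofReal_mul hc.le]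
  set R : ℝ := (F m : ℝ) / (m : ℝ) ^ e with hR
  have key : ∀ ε : ℝ, 0 < ε → ε < 1 → ε < c →
      ENNReal.ofReal ((1 - ε) ^ e * (c - ε) * R) ≤
        liminf (fun n : ℕ => (F n : ENNReal) / (n : ENNReal) ^ e) atTop := by
    intro ε h0 h1 hεc
    apply le_liminf_of_le
    · isBoundedDefault
    obtain ⟨K₀, hK₀⟩ := hN ε h0
    obtain ⟨N, hNN⟩ := exists_nat_gt ((m : ℝ) / ε)
    filter_upwards [eventually_ge_atTop (max (max N 1) (K₀ * m))] with n hn
    have hn1 : 1 ≤ n := (le_max_right _ _).trans ((le_max_left _ _).trans hn)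
    have hnN : N ≤ n := (le_max_left _ _).trans ((le_max_left _ _).trans hn)
    have hnK : K₀ * m ≤ n := (le_max_right _ _).trans hn
    have hn0 : (0 : ℝ) < n := by exact_mod_cast hn1
    rw [hreal n hn1]
    apply ENNReal.ofReal_le_ofReal
    set K : ℕ := n / m with hK
    have hKK : K₀ ≤ K := (Nat.le_div_iff_mul_le hm).mpr hnK
    have hKm : K * m ≤ n := Nat.div_mul_le_self n m
    have hKm' : n < (K + 1) * m := by
      have := Nat.lt_div_mul_add (a := n) hm
      rw [← hK] at this
      nlinarith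
    have h2 : (c - ε) * (K : ℝ) ^ e * F m ≤ F n :=
      (hK₀ K hKK m).trans (by exact_mod_cast hmono _ _ hKm)
    have h3 : (m : ℝ) < ε * n := by
      have : (m : ℝ) / ε < n := hNN.trans_le (by exact_mod_cast hnN)
      rw [div_lt_iff₀ h0] at this
      linarith
    have h4 : (1 - ε) * n ≤ K * m := by
      have h5 : (n : ℝ) < (K + 1) * m := by exact_mod_cast hKm'
      nlinarith
    rw [le_div_iff₀ (by positivity)]
    calc (1 - ε) ^ e * (c - ε) * R * (n : ℝ) ^ e
        = (c - ε) * ((((1 - ε) * n) / m) ^ e) * F m := by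
          rw [hR, div_pow, mul_pow]; ring
      _ ≤ (c - ε) * (K : ℝ) ^ e * F m := by
          apply mul_le_mul_of_nonneg_right _ (Nat.cast_nonneg _)
          apply mul_le_mul_of_nonneg_left _ (by linarith)
          apply pow_le_pow_left₀
          · apply div_nonneg _ hm0.le
            apply mul_nonneg _ hn0.le
            linarith
          · rw [div_le_iff₀ hm0]
            exact h4
      _ ≤ F n := h2
  have hlim : Tendsto (fun ε : ℝ => ENNReal.ofReal ((1 - ε) ^ e * (c - ε) * R)) (𝓝[>] 0)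
      (𝓝 (ENNReal.ofReal ((1 - 0) ^ e * (c - 0) * R))) := by
    apply Tendsto.mono_left _ nhdsWithin_le_nhds
    apply ENNReal.tendsto_ofReal
    exact ((((continuous_const.sub continuous_id).pow e).mul
      (continuous_const.sub continuous_id)).mul continuous_const).tendsto 0
  rw [sub_zero, one_pow, one_mul, sub_zero] at hlim
  apply le_of_tendsto hlim
  have hmin : 0 < min 1 c := lt_min one_pos hc
  filter_upwards [Ioo_mem_nhdsGT hmin] with ε hε
  exact key ε hε.1 (hε.2.trans_le (min_le_left _ _)) (hε.2.trans_le (min_le_right _ _))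

end Pool.Agent.MatLim
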