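import Mathlib

/-!
Monotone functions that are super-multiplicative at two multiplicatively independent scales.
-/

namespace Pool.Agent.MatLim

open Filter Topology

lemma core_cover {α β δ η : ℝ} (hβ : 0 < β) {p q : ℕ}
    (hη : p * α - q * β = η) (h0 : 0 < η) (hδ : η < δ) :
    ∃ B : ℝ, ∀ s ≥ B, ∃ a b : ℕ, a * α + b * β ≤ s ∧ s < a * α + b * β + δ := by
  refine ⟨β * (1 + q * (β / η)), ?_⟩
  intro s hs
  have hB0 : 0 ≤ β * (1 + q * (β / η)) := by positivity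
  have hs0 : 0 ≤ s := hB0.trans hs
  set b₀ : ℕ := ⌊s / β⌋₊ with hb₀
  have h1 : (b₀ : ℝ) ≤ s / β := Nat.floor_le (by positivity)
  have h2 : s / β < b₀ + 1 := Nat.lt_floor_add_one _
  have h1' : b₀ * β ≤ s := by
    rwa [le_div_iff₀ hβ] at h1
  have h2' : s < (b₀ + 1) * β := by
    rwa [div_lt_iff₀ hβ] at h2
  set r : ℝ := s - b₀ * β with hr
  have hr0 : 0 ≤ r := by linarith
  have hrβ : r < β := by linarith
  set j : ℕ := ⌊r / η⌋₊ with hj
  have h3 : (j : ℝ) ≤ r / η := Nat.floor_le (by positivity)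
  have h4 : r / η < j + 1 := Nat.lt_floor_add_one _
  have h3' : j * η ≤ r := by
    rwa [le_div_iff₀ h0] at h3
  have h4' : r < (j + 1) * η := by
    rwa [div_lt_iff₀ h0] at h4
  have hjq : j * q ≤ b₀ := by
    have h5 : (j : ℝ) ≤ β / η := by
      rw [le_div_iff₀ h0]; linarith
    have h6 : (j : ℝ) * q ≤ q * (β / η) := by
      rw [mul_comm]
      exact mul_le_mul_of_nonneg_left h5 (Nat.cast_nonneg q)
    have h7 : 1 + q * (β / η) ≤ s / β := by
      rw [le_div_iff₀ hβ, mul_comm]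
      exact hs
    have h8 : (j : ℝ) * q < b₀ := by linarith
    exact_mod_cast h8.le
  refine ⟨j * p, b₀ - j * q, ?_⟩
  have hcast : (((b₀ - j * q : ℕ) : ℝ)) = b₀ - j * q := by
    rw [Nat.cast_sub hjq]; push_cast; ring
  have hval : ((j * p : ℕ) : ℝ) * α + ((b₀ - j * q : ℕ) : ℝ) * β = b₀ * β + j * η := by
    rw [hcast, ← hη]; push_cast; ring
  rw [hval]
  constructor
  · linarith
  · have : (j + 1) * η = j * η + η := by ring
    linarith

lemma exists_small {α β δ : ℝ} (hα : 0 < α) (hβ : 0 < β) (hδ : 0 < δ)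
    (hind : ∀ p q : ℕ, 0 < p → (p : ℝ) * α ≠ q * β) :
    ∃ p q : ℕ, 0 < |(p : ℝ) * α - q * β| ∧ |(p : ℝ) * α - q * β| < δ := by
  obtain ⟨n, hn⟩ := exists_nat_gt (max (β / δ) (β / α))
  have hn1 : β / δ < n := (le_max_left _ _).trans_lt hn
  have hn2 : β / α < n := (le_max_right _ _).trans_lt hn
  have hnpos : 0 < n := by
    have : (0 : ℝ) < n := (by positivity : 0 < β / δ).trans hn1
    exact_mod_cast this
  obtain ⟨j, k, hk, -, hjk⟩ := Real.exists_int_int_abs_mul_sub_le (α / β) hnpos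
  have hnr : (0 : ℝ) < n + 1 := by positivity
  have h1 : |(k : ℝ) * α - j * β| ≤ β / (n + 1) := by
    have : (k : ℝ) * α - j * β = β * (k * (α / β) - j) := by field_simp
    rw [this, abs_mul, abs_of_pos hβ]
    calc β * |(k : ℝ) * (α / β) - j| ≤ β * (1 / (n + 1)) := mul_le_mul_of_nonneg_left hjk hβ.le
      _ = β / (n + 1) := by ring
  have h2 : β / (n + 1) < δ := by
    rw [div_lt_iff₀ hnr]
    rw [div_lt_iff₀ hδ] at hn1
    nlinarith
  have h3 : β / (n + 1) < α := by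
    rw [div_lt_iff₀ hnr]
    rw [div_lt_iff₀ hα] at hn2
    nlinarith
  have hk1 : (1 : ℝ) ≤ k := by exact_mod_cast hk
  have hj0 : 0 < j := by
    by_contra hj
    rw [not_lt] at hj
    have hj' : (j : ℝ) ≤ 0 := by exact_mod_cast hj
    have h4 : α ≤ k * α - j * β := by nlinarith
    have h5 := (le_abs_self _).trans h1
    linarith
  obtain ⟨p, hp⟩ := Int.eq_ofNat_of_zero_le hk.le
  obtain ⟨q, hq⟩ := Int.eq_ofNat_of_zero_le hj0.le
  subst hp
  subst hq
  have hpp : 0 < p := by exact_mod_cast hk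
  refine ⟨p, q, ?_, ?_⟩
  · rw [abs_pos, sub_ne_zero]
    exact hind p q hpp
  · have h6 := h1.trans_lt h2
    simpa using h6

lemma cover {α β δ : ℝ} (hα : 0 < α) (hβ : 0 < β) (hδ : 0 < δ)
    (hind : ∀ p q : ℕ, 0 < p → (p : ℝ) * α ≠ q * β) :
    ∃ B : ℝ, ∀ s ≥ B, ∃ a b : ℕ, a * α + b * β ≤ s ∧ s < a * α + b * β + δ := by
  obtain ⟨p, q, h0, h1⟩ := exists_small hα hβ hδ hind
  rcases lt_or_ge 0 ((p : ℝ) * α - q * β) with hpos | hneg
  · rw [abs_of_pos hpos] at h1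
    exact core_cover hβ rfl hpos h1
  · rw [abs_of_nonpos hneg] at h0 h1
    have h2 : (q : ℝ) * β - p * α = -((p : ℝ) * α - q * β) := by ring
    obtain ⟨B, hB⟩ := core_cover hα h2 h0 h1
    refine ⟨B, fun s hs => ?_⟩
    obtain ⟨a, b, h3, h4⟩ := hB s hs
    exact ⟨b, a, by linarith, by linarith⟩

lemma mul_cover {K₁ K₂ : ℕ} (h₁ : 2 ≤ K₁) (h₂ : 2 ≤ K₂)
    (hind : ∀ a b : ℕ, 0 < a → K₁ ^ a ≠ K₂ ^ b) {ε : ℝ} (hε0 : 0 < ε) (hε1 : ε < 1) :
    ∃ T : ℝ, 0 < T ∧ ∀ t ≥ T, ∃ a b : ℕ, ((K₁ ^ a * K₂ ^ b : ℕ) : ℝ) ≤ t ∧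
      (1 - ε) * t < ((K₁ ^ a * K₂ ^ b : ℕ) : ℝ) := by
  have hK₁ : (1 : ℝ) < K₁ := by exact_mod_cast h₁
  have hK₂ : (1 : ℝ) < K₂ := by exact_mod_cast h₂
  have hα : 0 < Real.log K₁ := Real.log_pos hK₁
  have hβ : 0 < Real.log K₂ := Real.log_pos hK₂
  have hδ : 0 < - Real.log (1 - ε) := by
    rw [neg_pos]
    exact Real.log_neg (by linarith) (by linarith)
  have hi : ∀ p q : ℕ, 0 < p → (p : ℝ) * Real.log K₁ ≠ q * Real.log K₂ := by
    intro p q hp h
    apply hind p q hp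
    rw [← Real.log_pow, ← Real.log_pow] at h
    have h5 : ((K₁ : ℝ)) ^ p = (K₂ : ℝ) ^ q := by
      apply Real.log_injOn_pos _ _ h
      · exact Set.mem_Ioi.mpr (by positivity)
      · exact Set.mem_Ioi.mpr (by positivity)
    exact_mod_cast h5
  obtain ⟨B, hB⟩ := cover hα hβ hδ hi
  refine ⟨Real.exp B, Real.exp_pos B, ?_⟩
  intro t ht
  have ht0 : 0 < t := (Real.exp_pos B).trans_le ht
  have hs : Real.log t ≥ B := (Real.le_log_iff_exp_le ht0).mpr ht
  obtain ⟨a, b, h3, h4⟩ := hB _ hs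
  refine ⟨a, b, ?_, ?_⟩
  · have hpos : (0 : ℝ) < ((K₁ ^ a * K₂ ^ b : ℕ) : ℝ) := by
      push_cast; positivity
    rw [← Real.log_le_log_iff hpos ht0]
    push_cast
    rw [Real.log_mul (by positivity) (by positivity), Real.log_pow, Real.log_pow]
    exact h3
  · have hpos : (0 : ℝ) < ((K₁ ^ a * K₂ ^ b : ℕ) : ℝ) := by
      push_cast; positivity
    have hpos' : 0 < (1 - ε) * t := mul_pos (by linarith) ht0
    rw [← Real.log_lt_log_iff hpos' hpos]
    rw [Real.log_mul (by linarith) ht0.ne']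
    push_cast
    rw [Real.log_mul (by positivity) (by positivity), Real.log_pow, Real.log_pow]
    linarith

lemma iterate_le {F : ℕ → ℕ} {K e : ℕ} (hF : ∀ n, K ^ e * F n ≤ F (K * n)) (a n : ℕ) :
    (K ^ a) ^ e * F n ≤ F (K ^ a * n) := by
  induction a with
  | zero => simp
  | succ a ih =>
    calc (K ^ (a + 1)) ^ e * F n = K ^ e * ((K ^ a) ^ e * F n) := by rw [pow_succ', mul_pow]; ring
      _ ≤ K ^ e * F (K ^ a * n) := Nat.mul_le_mul_left _ ih
      _ ≤ F (K * (K ^ a * n)) := hF _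
      _ = F (K ^ (a + 1) * n) := by rw [pow_succ']; ring_nf

theorem limit_of_two_scales {F : ℕ → ℕ} (hmono : ∀ n m, n ≤ m → F n ≤ F m) {e K₁ K₂ : ℕ}
    (h₁ : 2 ≤ K₁) (h₂ : 2 ≤ K₂) (hind : ∀ a b : ℕ, 0 < a → K₁ ^ a ≠ K₂ ^ b)
    (hF₁ : ∀ n, K₁ ^ e * F n ≤ F (K₁ * n)) (hF₂ : ∀ n, K₂ ^ e * F n ≤ F (K₂ * n)) :
    Tendsto (fun n : ℕ => (F n : ENNReal) / (n : ENNReal) ^ e) atTop
      (𝓝 (⨆ n : ℕ, ⨆ _ : 1 ≤ n, (F n : ENNReal) / (n : ENNReal) ^ e)) := by
  rw [tendsto_order]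
  constructor
  · intro L hL
    rw [lt_iSup_iff] at hL
    obtain ⟨m, hL⟩ := hL
    rw [lt_iSup_iff] at hL
    obtain ⟨hm, hL⟩ := hL
    have hm0 : (0 : ℝ) < m := by exact_mod_cast hm
    -- real valued version
    have hreal : ∀ n : ℕ, 1 ≤ n → (F n : ENNReal) / (n : ENNReal) ^ e
        = ENNReal.ofReal ((F n : ℝ) / (n : ℝ) ^ e) := by
      intro n hn
      have hn0 : (0 : ℝ) < n := by exact_mod_cast hn
      rw [ENNReal.ofReal_div_of_pos (by positivity), ENNReal.ofReal_natCast,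
        ENNReal.ofReal_pow hn0.le, ENNReal.ofReal_natCast]
    have hcont : Tendsto (fun ε : ℝ => ENNReal.ofReal ((1 - ε) ^ e * ((F m : ℝ) / (m : ℝ) ^ e)))
        (𝓝 0) (𝓝 (ENNReal.ofReal ((1 - 0) ^ e * ((F m : ℝ) / (m : ℝ) ^ e)))) := by
      apply ENNReal.tendsto_ofReal
      exact (((continuous_const.sub continuous_id).pow e).mul continuous_const).tendsto 0
    have hlt : L < ENNReal.ofReal ((1 - 0) ^ e * ((F m : ℝ) / (m : ℝ) ^ e)) := by
      rw [sub_zero, one_pow, one_mul, ← hreal m hm]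
      exact hL
    have hev := hcont.eventually (lt_mem_nhds hlt)
    rw [Metric.eventually_nhds_iff] at hev
    obtain ⟨δ, hδ, hev⟩ := hev
    set ε : ℝ := min (δ / 2) (1 / 2) with hεdef
    have hε0 : 0 < ε := by positivity
    have hε1 : ε < 1 := (min_le_right _ _).trans_lt (by norm_num)
    have hεδ : dist ε 0 < δ := by
      rw [Real.dist_eq, sub_zero, abs_of_pos hε0]
      exact (min_le_left _ _).trans_lt (by linarith)
    have hLε := hev hεδ
    obtain ⟨T, hT0, hT⟩ := mul_cover h₁ h₂ hind hε0 hε1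
    obtain ⟨N, hN⟩ := exists_nat_gt (m * T)
    filter_upwards [eventually_ge_atTop (max N 1)] with n hn
    have hn1 : 1 ≤ n := (le_max_right _ _).trans hn
    have hn0 : (0 : ℝ) < n := by exact_mod_cast hn1
    have hnN : (N : ℝ) ≤ n := by exact_mod_cast (le_max_left _ _).trans hn
    have hnT : (n : ℝ) / m ≥ T := by
      rw [ge_iff_le, le_div_iff₀ hm0]; linarith
    obtain ⟨a, b, hab1, hab2⟩ := hT _ hnT
    refine hLε.trans_le ?_
    rw [hreal n hn1]
    apply ENNReal.ofReal_le_ofReal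
    set M : ℕ := K₁ ^ a * K₂ ^ b with hM
    have hMn : M * m ≤ n := by
      rw [le_div_iff₀ hm0] at hab1
      exact_mod_cast hab1
    have hFM : M ^ e * F m ≤ F n := by
      calc M ^ e * F m = (K₁ ^ a) ^ e * ((K₂ ^ b) ^ e * F m) := by rw [hM, mul_pow]; ring
        _ ≤ (K₁ ^ a) ^ e * F (K₂ ^ b * m) := Nat.mul_le_mul_left _ (iterate_le hF₂ b m)
        _ ≤ F (K₁ ^ a * (K₂ ^ b * m)) := iterate_le hF₁ a _
        _ = F (M * m) := by rw [hM]; ring_nf
        _ ≤ F n := hmono _ _ hMn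
    have hFM' : (M : ℝ) ^ e * F m ≤ F n := by exact_mod_cast hFM
    rw [le_div_iff₀ (by positivity)]
    calc (1 - ε) ^ e * ((F m : ℝ) / (m : ℝ) ^ e) * (n : ℝ) ^ e
        = ((1 - ε) * (n / m)) ^ e * F m := by
          rw [mul_pow, div_pow]; ring
      _ ≤ (M : ℝ) ^ e * F m := by
          apply mul_le_mul_of_nonneg_right _ (Nat.cast_nonneg _)
          apply pow_le_pow_left₀ _ hab2.le
          apply mul_nonneg
          · linarith
          · positivity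
      _ ≤ F n := hFM'
  · intro L hL
    filter_upwards [eventually_ge_atTop 1] with n hn
    refine lt_of_le_of_lt ?_ hL
    exact le_iSup₂_of_le n hn le_rfl

end Pool.Agent.MatLim
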