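import Pool.Agent.Helper68.Mat.Block
import Pool.Agent.Helper68.Mat.Limit
import Pool.Agent.Helper68.Mat.Bad

/-!
The two-scale criterion and the transfer of safety along coordinatewise monotone maps.
-/

namespace Pool.Agent.MatLim

open Filter Topology

/-- The criterion: full safe block sets at two multiplicatively independent scales. -/
theorem criterion {d : ℕ} {k : Fin d → ℕ} {P : Finset ((i : Fin d) → Fin (k i))}
    (hP : Spanning P) {K₁ K₂ : ℕ} (h₁ : 2 ≤ K₁) (h₂ : 2 ≤ K₂)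
    (hind : ∀ a b : ℕ, 0 < a → K₁ ^ a ≠ K₂ ^ b)
    {S₁ : Finset (Fin d → Fin K₁)} {S₂ : Finset (Fin d → Fin K₂)}
    (hc₁ : K₁ ^ (d - 1) ≤ S₁.card) (hc₂ : K₂ ^ (d - 1) ≤ S₂.card)
    (hS₁ : Safe S₁ P) (hS₂ : Safe S₂ P) :
    Tendsto (ratio P) atTop (𝓝 (⨆ n : ℕ, ⨆ _ : 1 ≤ n, ratio P n)) :=
  limit_of_two_scales (fun _ _ h => ex_mono hP h) h₁ h₂ hind
    (fun n => (Nat.mul_le_mul_right _ hc₁).trans (block hP hS₁ n))
    (fun n => (Nat.mul_le_mul_right _ hc₂).trans (block hP hS₂ n))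

/-- Safety passes to every pattern that contains an end-hitting coordinatewise monotone image. -/
lemma safe_image {e m : ℕ} {τ : Fin e → Equiv.Perm (Fin m)} {k : Fin (e + 1) → ℕ}
    {c : (l : Fin (e + 1)) → Fin m → Fin (k l)} {P : Finset ((l : Fin (e + 1)) → Fin (k l))}
    (hc : ∀ l, Monotone (c l)) (hends : ∀ l (j : Fin (k l)), ∃ i i', c l i ≤ j ∧ j ≤ c l i')
    (hP : ∀ x ∈ permPattern τ, (fun l => c l (x l)) ∈ P)
    {K : ℕ} {S : Finset (Fin (e + 1) → Fin K)} (hS : Safe S (permPattern τ)) : Safe S P := by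
  intro φ hφ hmem x _ y _ l
  have h := hS (fun l => φ l ∘ c l) (fun l => (hφ l).comp (hc l))
    (fun z hz => hmem _ (hP z hz))
  have hconst : ∀ i i', φ l (c l i) = φ l (c l i') := by
    intro i i'
    obtain ⟨a, ha⟩ := (sig_bij τ l).2 i
    obtain ⟨a', ha'⟩ := (sig_bij τ l).2 i'
    have h1 := h _ ((mem_permPattern τ _).mpr ⟨a, rfl⟩) _ ((mem_permPattern τ _).mpr ⟨a', rfl⟩) l
    simp only [Function.comp_apply, ha, ha'] at h1
    exact h1
  have hval : ∀ j : Fin (k l), ∀ i, φ l j = φ l (c l i) := by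
    intro j i
    obtain ⟨u, v, hu, hv⟩ := hends l j
    apply le_antisymm
    · exact (hφ l hv).trans (hconst v i).le
    · exact (hconst i u).le.trans (hφ l hu)
  obtain ⟨i, -, -⟩ := hends l (x l)
  rw [hval (x l) i, hval (y l) i]

lemma spanning_image {e m : ℕ} {τ : Fin e → Equiv.Perm (Fin m)} {k : Fin (e + 1) → ℕ}
    {c : (l : Fin (e + 1)) → Fin m → Fin (k l)} {P : Finset ((l : Fin (e + 1)) → Fin (k l))}
    (hends : ∀ l (j : Fin (k l)), ∃ i i', c l i ≤ j ∧ j ≤ c l i')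
    (hP : ∀ x ∈ permPattern τ, (fun l => c l (x l)) ∈ P) : Spanning P := by
  intro l j
  obtain ⟨i, i', hi, hi'⟩ := hends l j
  obtain ⟨a, ha⟩ := (sig_bij τ l).2 i
  obtain ⟨a', ha'⟩ := (sig_bij τ l).2 i'
  refine ⟨⟨_, hP _ ((mem_permPattern τ _).mpr ⟨a, rfl⟩), ?_⟩,
    ⟨_, hP _ ((mem_permPattern τ _).mpr ⟨a', rfl⟩), ?_⟩⟩
  · simp only [ha]; exact hi
  · simp only [ha']; exact hi'

lemma two_pow_ne_three_pow (a b : ℕ) (ha : 0 < a) : 2 ^ a ≠ 3 ^ b := by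
  intro h
  have h1 : 2 ∣ 3 ^ b := by
    rw [← h]
    exact dvd_pow_self 2 ha.ne'
  have h2 : 2 ∣ 3 := Nat.prime_two.dvd_of_dvd_pow h1
  omega

end Pool.Agent.MatLim
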