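import Mathlib

/-!
Extremal function of a `d`-dimensional 0-1 pattern, safe block sets and permutation patterns
(MP_2bee9d_co).
-/

namespace Pool.Agent.MatLim

variable {d : ℕ} {k : Fin d → ℕ}

/-- The 0-1 array `A` (set of positions of its ones) contains the pattern `P`. -/
def Contains (P : Finset ((i : Fin d) → Fin (k i))) {n : ℕ} (A : Finset (Fin d → Fin n)) : Prop :=
  ∃ φ : (i : Fin d) → (Fin (k i) ↪o Fin n), ∀ x ∈ P, (fun i => φ i (x i)) ∈ A

/-- `ex P n` is the largest number of ones in an `n × ⋯ × n` 0-1 array that avoids `P`. -/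
noncomputable def ex (P : Finset ((i : Fin d) → Fin (k i))) (n : ℕ) : ℕ :=
  sSup {m : ℕ | ∃ A : Finset (Fin d → Fin n), A.card = m ∧ ¬ Contains P A}

/-- The normalised extremal function `ex P n / n^(d-1)`. -/
noncomputable def ratio (P : Finset ((i : Fin d) → Fin (k i))) (n : ℕ) : ENNReal :=
  (ex P n : ENNReal) / (n : ENNReal) ^ (d - 1)

/-- In every coordinate the index range of `P` begins and ends with a hyperplane containing a
one of `P`. -/
def Spanning (P : Finset ((i : Fin d) → Fin (k i))) : Prop :=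
  ∀ (i : Fin d) (j : Fin (k i)), (∃ x ∈ P, x i ≤ j) ∧ (∃ y ∈ P, j ≤ y i)

/-- A set `S` of blocks is safe for `P`: every coordinatewise weakly monotone map of the index
ranges of `P` into `[K]` that sends all ones of `P` into `S` sends them to a single element. -/
def Safe {K : ℕ} (S : Finset (Fin d → Fin K)) (P : Finset ((i : Fin d) → Fin (k i))) : Prop :=
  ∀ φ : (i : Fin d) → Fin (k i) → Fin K, (∀ i, Monotone (φ i)) →
    (∀ x ∈ P, (fun i => φ i (x i)) ∈ S) → ∀ x ∈ P, ∀ y ∈ P, ∀ i, φ i (x i) = φ i (y i)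

/-- The `(e+1)`-dimensional permutation pattern `{(i, τ₁ i, …, τ_e i)}`. -/
def permPattern {e k : ℕ} (τ : Fin e → Equiv.Perm (Fin k)) : Finset (Fin (e + 1) → Fin k) :=
  Finset.univ.image fun i => (Fin.cons i (fun j => τ j i) : Fin (e + 1) → Fin k)

end Pool.Agent.MatLim
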